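import Pool.Agent.Helper7_PAR.Core

/-!
# GapSVP with factor sqrt n and parity-P: instances, words, the check of a certificate
(squad LAT, MP_0fc649_lc)
-/

set_option autoImplicit false

namespace Pool.Agent.LAT

open Pool.Agent.PAR Matrix

/-! ### Instances -/

/-- The square of the Euclidean norm of an integer vector. -/
def nsq {m : ℕ} (v : Fin m → ℤ) : ℤ := v ⬝ᵥ v

/-- The lattice spanned by the rows of `A` has a vector with a nonzero coefficient vector and with
square of the norm at most `R`. -/
def Short {n m : ℕ} (A : Matrix (Fin n) (Fin m) ℤ) (R : ℤ) : Prop :=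
  ∃ c : Fin n → ℤ, c ≠ 0 ∧ nsq (c ᵥ* A) ≤ R

/-- The `w` lowest bits of the integer `z` (two's complement), the lowest bit first. -/
def bits (w : ℕ) (z : ℤ) : Word := (List.range w).map fun i => z.testBit i

/-- The code of an instance: the numbers `n`, `m`, `w` in unary, followed by the entries of the
matrix `A` (row by row) and the number `D` in two's complement with `w + 1` bits each. -/
def enc (n m w : ℕ) (A : Matrix (Fin n) (Fin m) ℤ) (D : ℤ) : Word :=
  List.replicate n true ++ false :: (List.replicate m true ++ false ::
    (List.replicate w true ++ false ::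
      ((List.ofFn fun i => (List.ofFn fun j => bits (w + 1) (A i j)).flatten).flatten ++
        bits (w + 1) D)))

/-- The data of an instance: `n` linearly independent integer vectors with `m` coordinates (the
rows of `A`), and an integer `D`; all numbers have at most `w` binary digits. -/
structure IsInst (n m w : ℕ) (A : Matrix (Fin n) (Fin m) ℤ) (D : ℤ) : Prop where
  indep : LinearIndependent ℤ (fun i => A i)
  entries : ∀ i j, |A i j| < 2 ^ w
  nonneg : 0 ≤ D
  bound : D < 2 ^ w

/-- A function of binary words which is computable in polynomial time. -/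
def PolyWord (f : Word → Word) : Prop :=
  Nonempty (Turing.TM2ComputableInPolyTime (id : Word → List Bool) (id : Word → List Bool) f)

/-! ### Integers written in words -/

/-- The integer with the two's complement digits `u`, the lowest digit first. -/
def ival (u : Word) : ℤ :=
  (∑ i ∈ Finset.range u.length, if u.getD i false = true then (2 : ℤ) ^ i else 0) -
    if u.getD (u.length - 1) false = true then 2 ^ u.length else 0

/-- The integer written in the word `x` from position `s` with `l` digits. -/
def num (x : Word) (s l : ℕ) : ℤ := ival ((x.drop s).take l)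

/-- The number of the letters `true` at the beginning of a word. -/
def lead (x : Word) : ℕ := (x.takeWhile id).length

/-! ### The check of a certificate

A certificate of a chain of `k` sublattices has `k` blocks.  A block is a table with `3 m + 1` rows
and `m` columns: a matrix `B` in Hermite normal form (rows `0, …, m - 1`), the matrix `Y`
(rows `m, …, 2 m - 1`) which certifies the determinant of the Gram matrix, the matrix `X`
(rows `2 m, …, 3 m - 1`) which certifies the inclusion in the next lattice, and one row `P` of
powers of `D`. -/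

/-- The entry `(i, l)` of the Gram matrix of block `t` (with one added on the diagonal for the zero
rows). -/
def gme (m : ℕ) (e : ℕ → ℕ → ℕ → ℤ) (t i l : ℕ) : ℤ :=
  (∑ j ∈ Finset.range m, e t i j * e t l j) + if i = l ∧ e t i i = 0 then 1 else 0

/-- The entry `(i, l)` of the product of the matrix `Y` of block `t` and of the Gram matrix. -/
def yge (m : ℕ) (e : ℕ → ℕ → ℕ → ℤ) (t i l : ℕ) : ℤ :=
  ∑ s ∈ Finset.range m, e t (m + i) s * gme m e t s l

/-- The check of the blocks `e 0, …, e (k - 1)`. -/
structure Chk (n m : ℕ) (D : ℤ) (a : ℕ → ℕ → ℤ) (k : ℕ) (e : ℕ → ℕ → ℕ → ℤ) : Prop where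
  tri : ∀ t < k, ∀ j < m, ∀ i < j, e t i j = 0
  diag : ∀ t < k, ∀ i < m, 0 ≤ e t i i
  zero : ∀ t < k, ∀ i < m, ∀ j < m, e t i i = 0 → e t i j = 0
  red : ∀ t < k, ∀ i < m, ∀ j < i, 0 < e t j j → 0 ≤ e t i j ∧ e t i j < e t j j
  ne : ∀ t < k, ∃ i < m, 0 < e t i i
  ylow : ∀ t < k, ∀ j < m, ∀ i < j, e t (m + i) j = 0
  ytri : ∀ t < k, ∀ i < m, ∀ j < i, yge m e t i j = 0
  yone : ∀ t < k, 0 < m → e t m 0 = 1
  ystep : ∀ t < k, ∀ i < m, i + 1 < m → e t (m + (i + 1)) (i + 1) = yge m e t i i
  pone : ∀ t < k, 0 < m → e t (3 * m) 0 = 1
  pstep : ∀ t < k, ∀ i < m, i + 1 < m →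
    e t (3 * m) (i + 1) = e t (3 * m) i * if 0 < e t i i then D else 1
  det : ∀ t < k, ∀ i < m, i + 1 = m →
    yge m e t i i ≤ e t (3 * m) i * if 0 < e t i i then D else 1
  link : ∀ t < k, t + 1 < k → ∀ i < m, ∀ j < m,
    ∑ l ∈ Finset.range m, e t (2 * m + i) l * e (t + 1) l j = e t i j
  linkz : ∀ t < k, t + 1 < k → ∀ i < m, ∀ l < m, e (t + 1) l l = 0 → e t (2 * m + i) l = 0
  last : ∀ t < k, t + 1 = k → ∀ i < m, ∀ j < m,
    ∑ l ∈ Finset.range n, e t (2 * m + i) l * a l j = e t i j
  lastz : ∀ t < k, t + 1 = k → ∀ i < m, ∀ l < m, n ≤ l → e t (2 * m + i) l = 0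
  strict : ∀ t < k, t + 1 < k → ∃ i < m, ∃ j < m, e t i j ≠ e (t + 1) i j

/-! ### Reading of an instance and of a certificate -/

/-- The width of the numbers in certificates. -/
def wid (x : Word) : ℕ := (x.length + 2) ^ 8

/-- The number of the rows of the instance written in the word `x`. -/
def pn (x : Word) : ℕ := lead x

/-- The rest of the word. -/
def x1 (x : Word) : Word := x.drop (pn x + 1)

/-- The number of the columns of the instance written in the word `x`. -/
def pm (x : Word) : ℕ := lead (x1 x)

/-- The rest of the word. -/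
def x2 (x : Word) : Word := (x1 x).drop (pm x + 1)

/-- The width of the numbers of the instance written in the word `x`. -/
def pw (x : Word) : ℕ := lead (x2 x)

/-- The rest of the word. -/
def x3 (x : Word) : Word := (x2 x).drop (pw x + 1)

/-- The entries of the matrix of the instance written in the word `x`. -/
def pa (x : Word) (i j : ℕ) : ℤ := num (x3 x) ((i * pm x + j) * (pw x + 1)) (pw x + 1)

/-- The number `D` of the instance written in the word `x`. -/
def pD (x : Word) : ℤ := num (x3 x) (pn x * pm x * (pw x + 1)) (pw x + 1)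

/-- The number of the letters of a block. -/
def bsz (x : Word) : ℕ := (3 * pm x + 1) * pm x * (wid x + 1)

/-- The entry `(r, j)` of block `t` of the certificate `y`. -/
def ent (x y : Word) (t r j : ℕ) : ℤ :=
  num y (((t * (3 * pm x + 1) + r) * pm x + j) * (wid x + 1)) (wid x + 1)

/-- The predicate of the machine. -/
def Vp (x y : Word) : Prop :=
  0 < y.length / bsz x ∧ y.length = y.length / bsz x * bsz x ∧ pn x ≤ pm x ∧
    Chk (pn x) (pm x) (pD x) (pa x) (y.length / bsz x) (ent x y)

open Classical in
/-- The predicate of the machine. -/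
noncomputable def Vb (z : Word × Word) : Bool := decide (Vp z.1 z.2)

/-- **Row MCH**: the predicate of the machine is decidable in polynomial time. -/
def MchStmt : Prop := PolyPair Vb

end Pool.Agent.LAT
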