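import Pool.Agent.LAT.Defs

/-!
# Squad LAT (MP_0fc649_lc), words and machines: statements of the rows
-/

set_option autoImplicit false

namespace Pool.Agent.LAT

open Pool.Agent.PAR Matrix

/-- **Row WDA** (40 lines).  The two's complement digits of an integer determine it.

Proof.  `bits (w + 1) z` has length `w + 1` and its letter number `i` is `z.testBit i`, so
`ival (bits (w + 1) z) = ∑ i < w + 1, [z.testBit i] 2 ^ i - [z.testBit w] 2 ^ (w + 1)`.  The sum is
`z % 2 ^ (w + 1)` (induction on the number of digits, `Int.testBit`; or: for `z ≥ 0` it is the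
binary expansion of `z.toNat % 2 ^ (w + 1)` (`Nat.testBit`), and for `z = -(k + 1)` (`Int.negSucc k`)
the digits are the complements of the digits of `k`, so that the sum is
`2 ^ (w + 1) - 1 - k % 2 ^ (w + 1)`).  If `0 ≤ z < 2 ^ w`, then the sum is `z` and bit `w` is zero;
if `-2 ^ w ≤ z < 0`, the sum is `2 ^ (w + 1) + z` and bit `w` is one. -/
def WdaStmt : Prop := ∀ (w : ℕ) (z : ℤ), -(2 ^ w) ≤ z → z < 2 ^ w → ival (bits (w + 1) z) = z

/-- **Row WDB** (60 lines).  Every word of length `w + 1` is the word of the digits of its value,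
which lies between `-2 ^ w` and `2 ^ w`.

Proof.  Let `S = ∑ i < w + 1, [u_i] 2 ^ i`; then `S = S' + [u_w] 2 ^ w` with
`S' = ∑ i < w, [u_i] 2 ^ i` and `0 ≤ S' < 2 ^ w`, so `ival u = S' - [u_w] 2 ^ w`, which gives the
bounds.  Bit `i ≤ w` of `ival u` is `u_i`: if `u_w = false`, `ival u = S'` is a natural number with
the binary digits `u_i` (`Nat.testBit` of a sum of powers, induction on `w`); if `u_w = true`,
`ival u = -(2 ^ w - S') = Int.negSucc (2 ^ w - 1 - S')` and `2 ^ w - 1 - S'` has the complementary
digits below `w`, and zero at `w`. -/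
def WdbStmt : Prop := ∀ (u : Word) (w : ℕ), u.length = w + 1 →
  bits (w + 1) (ival u) = u ∧ -(2 ^ w) ≤ ival u ∧ ival u < 2 ^ w

/-- The word of `c` integers, with `S + 1` digits each. -/
def tw (c S : ℕ) (f : ℕ → ℤ) : Word := (List.range c).flatMap fun i => bits (S + 1) (f i)

/-- **Row WDC** (60 lines, uses WDA, WDB).  Words of integers of fixed width.

Proof.  Induction on `c` (`List.range_succ`, `List.flatMap_append`); `(bits (S + 1) z).length =
S + 1`.  The digits of number `i` are `((tw c S f).drop (i (S + 1))).take (S + 1) =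
bits (S + 1) (f i)`; then WDA.  A word `y` of length `c (S + 1)` is the concatenation of its pieces
`(y.drop (i (S + 1))).take (S + 1)`, of length `S + 1`, which are `bits (S + 1)` of their values by
WDB. -/
def WdcStmt : Prop := ∀ c S : ℕ,
  (∀ f : ℕ → ℤ, (tw c S f).length = c * (S + 1)) ∧
  (∀ f : ℕ → ℤ, ∀ i < c, -(2 ^ S) ≤ f i → f i < 2 ^ S →
    num (tw c S f) (i * (S + 1)) (S + 1) = f i) ∧
  (∀ y : Word, y.length = c * (S + 1) →
    y = tw c S (fun i => num y (i * (S + 1)) (S + 1)) ∧
    ∀ i < c, -(2 ^ S) ≤ num y (i * (S + 1)) (S + 1) ∧ num y (i * (S + 1)) (S + 1) < 2 ^ S)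

/-- **Row PRS** (120 lines, uses WDA).  Reading of the code of an instance.

Proof.  `lead (List.replicate n true ++ false :: u) = n`, and dropping `n + 1` letters leaves `u`;
three times.  In `x3`, the entry `(i, j)` is written from position `(i m + j) (w + 1)`:
`(List.ofFn g).flatten` with all `g i` of the same length `m (w + 1)` (`List.ofFn`, induction on
`n`, `List.ofFn_succ`), and again for the rows.  `|A i j| < 2 ^ w` gives
`-(2 ^ w) ≤ A i j < 2 ^ w`, so that WDA applies. -/
def PrsStmt : Prop := ∀ (n m w : ℕ) (A : Matrix (Fin n) (Fin m) ℤ) (D : ℤ), IsInst n m w A D →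
  pn (enc n m w A D) = n ∧ pm (enc n m w A D) = m ∧ pw (enc n m w A D) = w ∧
  (∀ (i : Fin n) (j : Fin m), pa (enc n m w A D) i j = A i j) ∧ pD (enc n m w A D) = D ∧
  (enc n m w A D).length = n + m + w + 3 + (n * m + 1) * (w + 1)

/-- **Row RED** (120 lines).  The class parity-P is closed under many-one reductions.

Proof.  Let `V`, `q` be as in `InParityP K`.  The composition of the machine of `f` with a machine
for `V` is done in the calculus `FP` of `Pool/Agent/Helper7_PAR/Mach.lean`: `f` gives
`PT (fun w : List K => (f (w.flatMap g)).map K.a)` for the projection `g` of letters to bits (as in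
`pt_pred`), hence `FPW m A → FPW m (fun ρ => f (A ρ))` (`FP.call`); then
`V' (x, y) = V (f x, y) && decide (y.length ≤ q.eval (f x).length)` is `PolyPair` by `polyPair_of'`,
`FPB.call2`, `FPB.leN`, `FPN.poly`.  By `FP.bound` there is a polynomial `b` with
`(f x).length ≤ b.eval x.length` (apply it to `fun ρ => (f (tr 0 (ρ 0))).map K.a`, or to the function
with one variable; `size` of one word is its length), hence with `q' = q.comp b` (the values of `q`
are monotone) `witnesses V' q' x = witnesses V q (f x)`.  So `x ∈ L ↔ f x ∈ K ↔` the number of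
witnesses is odd. -/
def RedStmt : Prop := ∀ (L K : Set Word) (f : Word → Word), PolyWord f → InParityP K →
  (∀ x, x ∈ L ↔ f x ∈ K) → InParityP L

end Pool.Agent.LAT
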