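import Mathlib

/-!
# Squad LAT (MP_0fc649_lc), block M (mathematics): definitions

Subgroups `M` of `ℤᵐ` with the standard inner product, the Gram determinant `gd M` (the squared
covolume), Hermite normal forms as square matrices, and the poset `PP L D`.
-/

set_option autoImplicit false

namespace Pool.Agent.LAT

open Matrix

noncomputable section

/-- Gram matrix of a family of integer vectors -/
def gram {m : ℕ} {ι : Type} (v : ι → Fin m → ℤ) : Matrix ι ι ℤ := Matrix.of fun i j => v i ⬝ᵥ v j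

/-- Gram matrix of a family of real vectors -/
def rgram {m : ℕ} {ι : Type} (v : ι → Fin m → ℝ) : Matrix ι ι ℝ := Matrix.of fun i j => v i ⬝ᵥ v j

/-- rank of a subgroup of `ℤᵐ` -/
def rk {m : ℕ} (M : Submodule ℤ (Fin m → ℤ)) : ℕ := Module.finrank ℤ M

/-- Gram determinant of a subgroup of `ℤᵐ` (determinant of the Gram matrix of a `ℤ`-basis) -/
def gd {m : ℕ} (M : Submodule ℤ (Fin m → ℤ)) : ℤ :=
  (gram fun i => ((Module.finBasis ℤ M i : M) : Fin m → ℤ)).det

/-- the nonzero subgroups `M` of `L` with `gd M ≤ D ^ rk M` -/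
def PM {m : ℕ} (L : Submodule ℤ (Fin m → ℤ)) (D : ℕ) (M : Submodule ℤ (Fin m → ℤ)) : Prop :=
  M ≠ ⊥ ∧ M ≤ L ∧ gd M ≤ (D : ℤ) ^ rk M

/-- Hermite normal form, written as a square matrix: the row `k` is zero, or it is the basis
vector whose last nonzero coordinate is the `k`-th one. -/
structure IsHNF {m : ℕ} (B : Matrix (Fin m) (Fin m) ℤ) : Prop where
  tri : ∀ k i, k < i → B k i = 0
  nonneg : ∀ k, 0 ≤ B k k
  zero : ∀ k, B k k = 0 → ∀ i, B k i = 0
  red : ∀ k j, j < k → 0 < B j j → 0 ≤ B k j ∧ B k j < B j j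

/-- the subgroup generated by the rows -/
def rows {k m : ℕ} (B : Matrix (Fin k) (Fin m) ℤ) : Submodule ℤ (Fin m → ℤ) :=
  Submodule.span ℤ (Set.range fun i => B i)

/-- ones at the diagonal places of the zero rows -/
def EE {m : ℕ} (B : Matrix (Fin m) (Fin m) ℤ) : Matrix (Fin m) (Fin m) ℤ :=
  Matrix.diagonal fun k => if B k k = 0 then 1 else 0

/-- Gram matrix of the rows, completed by ones -/
def GG {m : ℕ} (B : Matrix (Fin m) (Fin m) ℤ) : Matrix (Fin m) (Fin m) ℤ := B * Bᵀ + EE B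

/-- number of the nonzero rows -/
def piv {m : ℕ} (B : Matrix (Fin m) (Fin m) ℤ) : ℕ :=
  (Finset.univ.filter fun k => B k k ≠ 0).card

/-- the Hermite normal forms of the subgroups in `PM L D` -/
def PP {m : ℕ} (L : Submodule ℤ (Fin m → ℤ)) (D : ℕ) (B : Matrix (Fin m) (Fin m) ℤ) : Prop :=
  IsHNF B ∧ B ≠ 0 ∧ rows B ≤ L ∧ (GG B).det ≤ (D : ℤ) ^ piv B

/-- the nonempty chains of `PP L D` -/
def chL {m : ℕ} (L : Submodule ℤ (Fin m → ℤ)) (D : ℕ) :
    Set (List (Matrix (Fin m) (Fin m) ℤ)) :=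
  {l | l ≠ [] ∧ (∀ B ∈ l, PP L D B) ∧ l.Pairwise fun B B' => rows B < rows B'}

/-- the leading block of size `c` of `G`, completed by ones -/
def LB {m : ℕ} (G : Matrix (Fin m) (Fin m) ℤ) (c : ℕ) : Matrix (Fin m) (Fin m) ℤ :=
  Matrix.of fun i j => if (i : ℕ) < c ∧ (j : ℕ) < c then G i j else if i = j then 1 else 0

/-- Certificate for the leading minors `d c` of `G`: `u c` is supported on the indices `≤ c`,
`u c c = d c` and `G u_c` is `d (c+1)` times the unit vector `c` on the indices `≤ c`. -/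
structure IsCert {m : ℕ} (G : Matrix (Fin m) (Fin m) ℤ) (d : Fin (m + 1) → ℤ)
    (u : Fin m → Fin m → ℤ) : Prop where
  zero : d 0 = 1
  supp : ∀ c j, c < j → u c j = 0
  diag : ∀ c, u c c = d c.castSucc
  eq : ∀ c i, i ≤ c → ∑ j, G i j * u c j = if i = c then d c.succ else 0

/-- The same certificate as one lower triangular matrix `A` (the row `c` of `A` is `u c`): `A G` is
upper triangular and its diagonal entries are the next diagonal entries of `A`. -/
structure IsTri {m : ℕ} (G A : Matrix (Fin m) (Fin m) ℤ) : Prop where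
  low : ∀ i j, i < j → A i j = 0
  up : ∀ i j, j < i → (A * G) i j = 0
  zero : ∀ i : Fin m, (i : ℕ) = 0 → A i i = 1
  step : ∀ i j : Fin m, (j : ℕ) = (i : ℕ) + 1 → A j j = (A * G) i i

end

end Pool.Agent.LAT
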