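import Pool.Agent.LAT.Defs
import Pool.Agent.LAT.DefsM

/-!
# GapCVP with factor sqrt (1 + n (n + 1) / 2) and parity-P: instances, the check of a certificate,
the set of certificates and the interface (squad LAT, part 2, MP_0fc649_lc)
-/

set_option autoImplicit false

namespace Pool.Agent.LAT

open Pool.Agent.PAR Matrix

noncomputable section

/-! ### Instances -/

/-- Some vector of the lattice spanned by the rows of `A` has distance at most `sqrt R` from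
`v`. -/
def Close {n m : ℕ} (A : Matrix (Fin n) (Fin m) ℤ) (v : Fin m → ℤ) (R : ℤ) : Prop :=
  ∃ c : Fin n → ℤ, nsq (v - c ᵥ* A) ≤ R

/-- The data of an instance of the closest vector problem: `n` linearly independent integer vectors
with `m` coordinates (the rows of `A`), an integer vector `v` and an integer `d`; all numbers have
at most `w` binary digits. -/
structure IsCvp (n m w : ℕ) (A : Matrix (Fin n) (Fin m) ℤ) (v : Fin m → ℤ) (d : ℤ) : Prop where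
  dim : 0 < m
  indep : LinearIndependent ℤ (fun i => A i)
  entries : ∀ i j, |A i j| < 2 ^ w
  target : ∀ j, |v j| < 2 ^ w
  nonneg : 0 ≤ d
  bound : d < 2 ^ w

/-- The matrix with the rows of `A` and the last row `v`. -/
def addRow {n m : ℕ} (A : Matrix (Fin n) (Fin m) ℤ) (v : Fin m → ℤ) :
    Matrix (Fin (n + 1)) (Fin m) ℤ :=
  Matrix.of fun i j => if h : (i : ℕ) < n then A ⟨i, h⟩ j else v j

/-- The code of an instance of the closest vector problem: the code of the matrix with the rows of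
`A` and the last row `v`, and of the number `d`. -/
def encC (n m w : ℕ) (A : Matrix (Fin n) (Fin m) ℤ) (v : Fin m → ℤ) (d : ℤ) : Word :=
  enc (n + 1) m w (addRow A v) d

/-! ### The check of a certificate -/

/-- The determinant which is certified in block `t`. -/
def dte (m : ℕ) (e : ℕ → ℕ → ℕ → ℤ) (t : ℕ) : ℤ := yge m e t (m - 1) (m - 1)

/-- The power of `4 d` which is certified in block `t`. -/
def pte (m : ℕ) (d : ℤ) (e : ℕ → ℕ → ℕ → ℤ) (t : ℕ) : ℤ :=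
  e t (3 * m) (m - 1) * if 0 < e t (m - 1) (m - 1) then 4 * d else 1

/-- The conditions on the marked block `c` and on the first three rows `u`, `z`, `y` of the
tail `f`. -/
structure Mark (m : ℕ) (d : ℤ) (v : ℕ → ℤ) (k : ℕ) (e : ℕ → ℕ → ℕ → ℤ) (f : ℕ → ℕ → ℤ) (c : ℕ) :
    Prop where
  cell : f 3 0 = (c : ℤ)
  dp : dte m e c ≤ pte m d e c
  lt : ∀ t < k, t < c → pte m d e c * dte m e t < pte m d e t * dte m e c
  le : ∀ t < k, c < t → pte m d e c * dte m e t ≤ pte m d e t * dte m e c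
  red : ∀ j < m, 0 < e c j j → 0 ≤ f 0 j ∧ f 0 j < e c j j
  sol : ∀ i < m, ∑ l ∈ Finset.range m, f 2 l * gme m e c l i =
    -(dte m e c) * ∑ j ∈ Finset.range m, e c i j * (v j - f 0 j)
  dist : (∑ i ∈ Finset.range m, f 2 i * ∑ j ∈ Finset.range m, e c i j * (v j - f 0 j)) +
    dte m e c * ∑ j ∈ Finset.range m, (v j - f 0 j) * (v j - f 0 j) ≤ d * dte m e c

/-- The check of the blocks `e 0, …, e (k - 1)` and of the tail `f`. -/
structure ChkC (n m : ℕ) (d : ℤ) (a : ℕ → ℕ → ℤ) (v : ℕ → ℤ) (k : ℕ) (e : ℕ → ℕ → ℕ → ℤ)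
    (f : ℕ → ℕ → ℤ) : Prop where
  tri : ∀ t < k, ∀ j < m, ∀ i < j, e t i j = 0
  diag : ∀ t < k, ∀ i < m, 0 ≤ e t i i
  zero : ∀ t < k, ∀ i < m, ∀ j < m, e t i i = 0 → e t i j = 0
  red : ∀ t < k, ∀ i < m, ∀ j < i, 0 < e t j j → 0 ≤ e t i j ∧ e t i j < e t j j
  ylow : ∀ t < k, ∀ j < m, ∀ i < j, e t (m + i) j = 0
  ytri : ∀ t < k, ∀ i < m, ∀ j < i, yge m e t i j = 0
  yone : ∀ t < k, e t m 0 = 1
  ystep : ∀ t < k, ∀ i < m, i + 1 < m → e t (m + (i + 1)) (i + 1) = yge m e t i i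
  pone : ∀ t < k, e t (3 * m) 0 = 1
  pstep : ∀ t < k, ∀ i < m, i + 1 < m →
    e t (3 * m) (i + 1) = e t (3 * m) i * if 0 < e t i i then 4 * d else 1
  link : ∀ t < k, t + 1 < k → ∀ i < m, ∀ j < m,
    ∑ l ∈ Finset.range m, e t (2 * m + i) l * e (t + 1) l j = e t i j
  linkz : ∀ t < k, t + 1 < k → ∀ i < m, ∀ l < m, e (t + 1) l l = 0 → e t (2 * m + i) l = 0
  last : ∀ t < k, t + 1 = k → ∀ i < m, ∀ j < m,
    ∑ l ∈ Finset.range n, e t (2 * m + i) l * a l j = e t i j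
  lastz : ∀ t < k, t + 1 = k → ∀ i < m, ∀ l < m, n ≤ l → e t (2 * m + i) l = 0
  strict : ∀ t < k, t + 1 < k → ∃ i < m, ∃ j < m, e t i j ≠ e (t + 1) i j
  mem : ∀ j < m, ∑ l ∈ Finset.range n, f 1 l * a l j = f 0 j
  memz : ∀ l < m, n ≤ l → f 1 l = 0
  markz : ∀ j < m, 0 < j → f 3 j = 0
  mark : ∃ c < k, Mark m d v k e f c

/-- The number of the blocks of the certificate `y`: it has `k` blocks with `3 m + 1` rows and a
tail with `4` rows, each row has `m` numbers. -/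
def kC (x y : Word) : ℕ := (y.length / (pm x * (wid x + 1)) - 4) / (3 * pm x + 1)

/-- The predicate of the machine. -/
def VpC (x y : Word) : Prop :=
  0 < pm x ∧ 0 < pn x ∧ pn x - 1 ≤ pm x ∧
    y.length = (kC x y * (3 * pm x + 1) + 4) * (pm x * (wid x + 1)) ∧
    ChkC (pn x - 1) (pm x) (pD x) (pa x) (pa x (pn x - 1)) (kC x y) (ent x y)
      (ent x y (kC x y))

open Classical in
/-- The predicate of the machine. -/
def VbC (z : Word × Word) : Bool := decide (VpC z.1 z.2)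

/-- **Row MCC**: the predicate of the machine is decidable in polynomial time. -/
def MccStmt : Prop := PolyPair VbC

/-! ### The set of certificates in terms of matrices -/

/-- The Hermite normal forms of the sublattices `M` of `L` (zero included) with
`gd M ≤ D ^ rk M`. -/
def PQ {m : ℕ} (L : Submodule ℤ (Fin m → ℤ)) (D : ℕ) (B : Matrix (Fin m) (Fin m) ℤ) : Prop :=
  IsHNF B ∧ rows B ≤ L ∧ (GG B).det ≤ (D : ℤ) ^ piv B

/-- `phi M < phi N`, where `phi M = D ^ rk M / gd M`. -/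
def phiLt {m : ℕ} (D : ℕ) (M N : Matrix (Fin m) (Fin m) ℤ) : Prop :=
  (D : ℤ) ^ piv M * (GG N).det < (D : ℤ) ^ piv N * (GG M).det

/-- `phi M ≤ phi N`. -/
def phiLe {m : ℕ} (D : ℕ) (M N : Matrix (Fin m) (Fin m) ℤ) : Prop :=
  (D : ℤ) ^ piv M * (GG N).det ≤ (D : ℤ) ^ piv N * (GG M).det

/-- The certificate of a coset `u + rows B` of the lattice of `A` with distance at most `sqrt d`
between `v - u` and the real span of `rows B`. -/
structure Tail {n m : ℕ} (A : Matrix (Fin n) (Fin m) ℤ) (v : Fin m → ℤ) (d : ℕ)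
    (B : Matrix (Fin m) (Fin m) ℤ) (u : Fin m → ℤ) (z : Fin n → ℤ) (y : Fin m → ℤ) : Prop where
  mem : z ᵥ* A = u
  red : ∀ j, 0 < B j j → 0 ≤ u j ∧ u j < B j j
  sol : y ᵥ* GG B = -(GG B).det • (B *ᵥ (v - u))
  dist : y ⬝ᵥ (B *ᵥ (v - u)) + (GG B).det * ((v - u) ⬝ᵥ (v - u)) ≤ (d : ℤ) * (GG B).det

/-- The integer `z` is written with `S + 1` digits in two's complement. -/
def Rng (S : ℕ) (z : ℤ) : Prop := -(2 ^ S) ≤ z ∧ z < 2 ^ S

/-- The certificates: a strictly increasing chain `l`, the position `c` of the marked element, and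
the vectors `u`, `z`, `y` of the tail. -/
structure IsCS {n m : ℕ} (A : Matrix (Fin n) (Fin m) ℤ) (v : Fin m → ℤ) (d s : ℕ)
    (l : List (Matrix (Fin m) (Fin m) ℤ)) (c : ℕ) (u : Fin m → ℤ) (z : Fin n → ℤ)
    (y : Fin m → ℤ) : Prop where
  hnf : ∀ B ∈ l, IsHNF B ∧ rows B ≤ rows A
  chain : l.Pairwise fun B B' => rows B < rows B'
  lt : c < l.length
  pq : PQ (rows A) (4 * d) (l.getD c 0)
  before : ∀ t < c, phiLt (4 * d) (l.getD c 0) (l.getD t 0)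
  after : ∀ t, c < t → t < l.length → phiLe (4 * d) (l.getD c 0) (l.getD t 0)
  tail : Tail A v d (l.getD c 0) u z y
  ru : ∀ j, Rng ((s + 2) ^ 8) (u j)
  rz : ∀ j, Rng ((s + 2) ^ 8) (z j)
  ry : ∀ j, Rng ((s + 2) ^ 8) (y j)

/-- The set of the certificates. -/
def CS {n m : ℕ} (A : Matrix (Fin n) (Fin m) ℤ) (v : Fin m → ℤ) (d s : ℕ) :
    Set (List (Matrix (Fin m) (Fin m) ℤ) × ℕ × (Fin m → ℤ) × (Fin n → ℤ) × (Fin m → ℤ)) :=
  {p | IsCS A v d s p.1 p.2.1 p.2.2.1 p.2.2.2.1 p.2.2.2.2}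

/-- Everything about the lattice `rows A` and the vector `v` that is needed for the assembly. -/
structure FinC (n m s d : ℕ) (A : Matrix (Fin n) (Fin m) ℤ) (v : Fin m → ℤ) : Prop where
  nm : n ≤ m
  len : ∀ p ∈ CS A v d s, p.1.length ≤ (s + 2) ^ 10
  allpq : ∀ p ∈ CS A v d s, ∀ B ∈ p.1, PQ (rows A) (4 * d) B
  yes : (∃ c : Fin n → ℤ, (v - c ᵥ* A) ⬝ᵥ (v - c ᵥ* A) ≤ (d : ℤ)) → Odd (CS A v d s).ncard
  no : (∀ c : Fin n → ℤ, ((1 + n * (n + 1) / 2 : ℕ) : ℤ) * d < (v - c ᵥ* A) ⬝ᵥ (v - c ᵥ* A)) →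
    Even (CS A v d s).ncard
  bB : ∀ B, PQ (rows A) (4 * d) B → ∀ i j, |B i j| < 2 ^ ((s + 2) ^ 8)
  exY : ∀ B, PQ (rows A) (4 * d) B →
    ∃ Y, IsTri (GG B) Y ∧ ∀ i j, |Y i j| < 2 ^ ((s + 2) ^ 8)
  unY : ∀ B : Matrix (Fin m) (Fin m) ℤ, IsHNF B → ∀ Y Y', IsTri (GG B) Y → IsTri (GG B) Y' → Y = Y'
  detY : ∀ B : Matrix (Fin m) (Fin m) ℤ, IsHNF B → ∀ Y, IsTri (GG B) Y →
    ∀ i : Fin m, (i : ℕ) + 1 = m → (Y * GG B) i i = (GG B).det
  inc : ∀ B B' : Matrix (Fin m) (Fin m) ℤ, IsHNF B' →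
    (rows B ≤ rows B' ↔ ∃ X : Matrix (Fin m) (Fin m) ℤ, B = X * B' ∧ ∀ i j, B' j j = 0 → X i j = 0)
  unX : ∀ B B' : Matrix (Fin m) (Fin m) ℤ, IsHNF B' → ∀ X X' : Matrix (Fin m) (Fin m) ℤ,
    B = X * B' → (∀ i j, B' j j = 0 → X i j = 0) → B = X' * B' →
    (∀ i j, B' j j = 0 → X' i j = 0) → X = X'
  bX : ∀ B B' : Matrix (Fin m) (Fin m) ℤ, PQ (rows A) (4 * d) B → PQ (rows A) (4 * d) B' →
    ∀ X : Matrix (Fin m) (Fin m) ℤ, B = X * B' → (∀ i j, B' j j = 0 → X i j = 0) →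
      ∀ i j, |X i j| < 2 ^ ((s + 2) ^ 8)
  ina : ∀ B : Matrix (Fin m) (Fin m) ℤ,
    rows B ≤ rows A ↔ ∃ X : Matrix (Fin m) (Fin n) ℤ, B = X * A
  unA : ∀ (B : Matrix (Fin m) (Fin m) ℤ) (X X' : Matrix (Fin m) (Fin n) ℤ),
    B = X * A → B = X' * A → X = X'
  bA : ∀ B : Matrix (Fin m) (Fin m) ℤ, PQ (rows A) (4 * d) B → ∀ X : Matrix (Fin m) (Fin n) ℤ,
    B = X * A → ∀ i j, |X i j| < 2 ^ ((s + 2) ^ 8)
  eqr : ∀ B B' : Matrix (Fin m) (Fin m) ℤ, IsHNF B → IsHNF B' → rows B = rows B' → B = B'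
  pw : ∀ i ≤ m, ((4 * d : ℕ) : ℤ) ^ i < 2 ^ ((s + 2) ^ 8)

/-- The interface of part 2. -/
def FncStmt : Prop := ∀ (n m s d : ℕ) (A : Matrix (Fin n) (Fin m) ℤ) (v : Fin m → ℤ),
  0 < m → LinearIndependent ℤ (fun i => A i) → m ≤ s → 4 * d < 2 ^ s →
  (∀ i j, |A i j| < 2 ^ s) → (∀ j, |v j| < 2 ^ s) → FinC n m s d A v

end

end Pool.Agent.LAT
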