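import Pool.Agent.LAT.StmtsM

/-!
# Squad LAT (MP_0fc649_lc), block M: the interface with the assembly
-/

set_option autoImplicit false

namespace Pool.Agent.LAT

open Matrix

noncomputable section

/-- Everything about the lattice `rows A` of an instance that is needed for the assembly. -/
structure FinM (n m s D : ℕ) (A : Matrix (Fin n) (Fin m) ℤ) : Prop where
  nm : n ≤ m
  fin : (chL (rows A) D).Finite
  len : ∀ l ∈ chL (rows A) D, l.length ≤ (s + 2) ^ 10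
  yes : (∃ c : Fin n → ℤ, c ≠ 0 ∧ (c ᵥ* A) ⬝ᵥ (c ᵥ* A) ≤ (D : ℤ)) → Odd (chL (rows A) D).ncard
  no : (∀ c : Fin n → ℤ, c ≠ 0 → (n : ℤ) * D < (c ᵥ* A) ⬝ᵥ (c ᵥ* A)) → chL (rows A) D = ∅
  dich : Odd (chL (rows A) D).ncard ∨ chL (rows A) D = ∅
  bB : ∀ B, PP (rows A) D B → ∀ i j, |B i j| < 2 ^ ((s + 2) ^ 8)
  exY : ∀ B, PP (rows A) D B → ∃ Y, IsTri (GG B) Y ∧ ∀ i j, |Y i j| < 2 ^ ((s + 2) ^ 8)
  unY : ∀ B : Matrix (Fin m) (Fin m) ℤ, IsHNF B → ∀ Y Y', IsTri (GG B) Y → IsTri (GG B) Y' → Y = Y'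
  detY : ∀ B : Matrix (Fin m) (Fin m) ℤ, IsHNF B → ∀ Y, IsTri (GG B) Y →
    ∀ i : Fin m, (i : ℕ) + 1 = m → (Y * GG B) i i = (GG B).det
  inc : ∀ B B' : Matrix (Fin m) (Fin m) ℤ, IsHNF B' →
    (rows B ≤ rows B' ↔ ∃ X : Matrix (Fin m) (Fin m) ℤ, B = X * B' ∧ ∀ i j, B' j j = 0 → X i j = 0)
  unX : ∀ B B' : Matrix (Fin m) (Fin m) ℤ, IsHNF B' → ∀ X X' : Matrix (Fin m) (Fin m) ℤ,
    B = X * B' → (∀ i j, B' j j = 0 → X i j = 0) → B = X' * B' →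
    (∀ i j, B' j j = 0 → X' i j = 0) → X = X'
  bX : ∀ B B' : Matrix (Fin m) (Fin m) ℤ, PP (rows A) D B → PP (rows A) D B' →
    ∀ X : Matrix (Fin m) (Fin m) ℤ, B = X * B' → (∀ i j, B' j j = 0 → X i j = 0) →
      ∀ i j, |X i j| < 2 ^ ((s + 2) ^ 8)
  ina : ∀ B : Matrix (Fin m) (Fin m) ℤ,
    rows B ≤ rows A ↔ ∃ X : Matrix (Fin m) (Fin n) ℤ, B = X * A
  unA : ∀ (B : Matrix (Fin m) (Fin m) ℤ) (X X' : Matrix (Fin m) (Fin n) ℤ),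
    B = X * A → B = X' * A → X = X'
  bA : ∀ B : Matrix (Fin m) (Fin m) ℤ, PP (rows A) D B → ∀ X : Matrix (Fin m) (Fin n) ℤ,
    B = X * A → ∀ i j, |X i j| < 2 ^ ((s + 2) ^ 8)
  eqr : ∀ B B' : Matrix (Fin m) (Fin m) ℤ, IsHNF B → IsHNF B' → rows B = rows B' → B = B'
  pw : ∀ i ≤ m, (D : ℤ) ^ i < 2 ^ ((s + 2) ^ 8)

/-- M_FNM (200): the interface.  Uses CNT, GGP, CET, BND, INC, INA, HNU.

Proof.  `rk (rows A) = n` (the rows are a basis; `finrank_span_eq_card`), so `n ≤ m`, and `w ∈ rows A` iff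
`w = c ᵥ* A` for some `c`, with `w ≠ 0` iff `c ≠ 0`.  With `D < 2 ^ s`, `m ≤ s`: `size D ≤ s`, the lengths are
`≤ s (1 + s²) ≤ (s + 2) ^ 10`; `|B i j| ≤ m D ^ m < 2 ^ (s² + s)` for `B` in `PP`; the entries of `GG B` are
`≤ m b² + 1 ≤ 2 ^ (2 s² + 3 s)`; those of `Y` `≤ m! X ^ m ≤ 2 ^ (2 s³ + 4 s²)`; those of `X` in `bX`
`≤ m b (m! b ^ m) ≤ 2 ^ (s³ + 3 s² + 2 s)`; those of `X` in `bA` (`a = 2 ^ s`) `≤ 2 ^ (5 s² + 4 s)`. -/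
def FnmStmt : Prop := ∀ (n m s D : ℕ) (A : Matrix (Fin n) (Fin m) ℤ),
  LinearIndependent ℤ (fun i => A i) → m ≤ s → D < 2 ^ s → (∀ i j, |A i j| < 2 ^ s) →
  FinM n m s D A

end

end Pool.Agent.LAT
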