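import Pool.Agent.LAT.DefsM

/-!
# Squad LAT (MP_0fc649_lc), block M (mathematics): statements

All rows are independent: the statements of the rows in `Uses` are hypotheses `(h : XxxStmt)`.
Complete proofs are in the docstrings.  `gd M` is the squared covolume of `M ≤ ℤᵐ`.
-/

set_option autoImplicit false

namespace Pool.Agent.LAT

open Matrix

noncomputable section

/-! ## Gram determinants -/

/-- M_BAS (60): the Gram determinant does not depend on the basis.

Proof.  Let `b'` be `Module.finBasis ℤ M`.  Reindex `b` along an equivalence `ι ≃ Fin (finrank ℤ M)` (both index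
sets have `finrank` elements: `Module.finrank_eq_card_basis`; `Matrix.det_submatrix_equiv_self`).  Then
`b i = Σ_j A i j b'_j`, `gram b = A (gram b') Aᵀ` (bilinearity), `A` is invertible over `ℤ` (`Basis.toMatrix_mul_toMatrix_flip`),
so `det A = ±1`, `det (gram b) = (det A)² det (gram b')`. -/
def BasStmt : Prop := ∀ (m : ℕ) (M : Submodule ℤ (Fin m → ℤ)) (ι : Type) [Fintype ι]
  [DecidableEq ι] (b : Module.Basis ι ℤ M), (gram fun i => ((b i : M) : Fin m → ℤ)).det = gd M

/-- M_POS (70): positivity.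

Proof.  (1) Let `v : Fin r → Fin m → ℤ` be linearly independent over `ℤ` and `G = gram v`.  `det G ≠ 0`: otherwise
there is an integer vector `x ≠ 0` with `G x = 0` (`Matrix.exists_mulVec_eq_zero_iff`), so
`0 = x ⬝ G x = |Σ x_i v_i|²`, `Σ x_i v_i = 0`, contradiction.  `det G ≥ 0`: over `ℝ`, `G = V Vᵀ` is positive semidefinite
(`Matrix.posSemidef_self_mul_conjTranspose`, `Matrix.PosSemidef.det_nonneg`; cast with `Int.cast_det` or `RingHom.map_det`).
(2) Apply it to the basis vectors of `M` (independent: `Module.Basis.linearIndependent`, injectivity of `M.subtype`).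
(3) `⊥` has `finrank` `0`, the determinant of an empty matrix is `1`. -/
def PosStmt : Prop :=
  (∀ (m r : ℕ) (v : Fin r → Fin m → ℤ), LinearIndependent ℤ v → 1 ≤ (gram v).det) ∧
  (∀ (m : ℕ) (M : Submodule ℤ (Fin m → ℤ)), 1 ≤ gd M) ∧
  ∀ m : ℕ, gd (⊥ : Submodule ℤ (Fin m → ℤ)) = 1 ∧ rk (⊥ : Submodule ℤ (Fin m → ℤ)) = 0

/-- M_GSD (90): Gram determinant and distance.

Proof.  `G = rgram v` is symmetric and invertible.  Choose `x` with `G x = c`, `c_i = v_i ⬝ w` (`x = G⁻¹ c`), and put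
`u = w - Σ x_i v_i`; `v_i ⬝ u = c_i - (G x)_i = 0` for all `i`.  `δ = u ⬝ u`.  For every `y`:
`w - Σ y_i v_i = u + Σ (x_i - y_i) v_i`, and the second term is orthogonal to `u`, so the square is `≥ δ`, with equality
for `y = x`.  Determinant: order the indices of `Fin.snoc v w` as `Fin r ⊕ Unit` (`finSumFinEquiv`, or
`Matrix.det_submatrix_equiv_self`): the matrix is the block matrix `(G, c; cᵀ, w ⬝ w)`, its determinant is
`det G · (w ⬝ w - c ⬝ G⁻¹ c)` (`Matrix.det_fromBlocks₁₁`), and `w ⬝ w - c ⬝ x = w ⬝ u = u ⬝ u`. -/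
def GsdStmt : Prop := ∀ (m r : ℕ) (v : Fin r → Fin m → ℝ) (w : Fin m → ℝ), (rgram v).det ≠ 0 →
  ∃ δ : ℝ, (rgram (Fin.snoc v w : Fin (r + 1) → Fin m → ℝ)).det = (rgram v).det * δ ∧
    (∀ y : Fin r → ℝ, δ ≤ (w - ∑ i, y i • v i) ⬝ᵥ (w - ∑ i, y i • v i)) ∧
    ∃ y : Fin r → ℝ, δ = (w - ∑ i, y i • v i) ⬝ᵥ (w - ∑ i, y i • v i)

/-- M_FIS (STRONG, 120): adding a new direction.  Uses BAS, POS, GSD.

Proof.  Let `a : Fin r → ℤᵐ` be a basis of `A` and `b` a basis of `B` (`Module.finBasis`).  Since no nonzero multiple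
of `w` is in `B`, `a` together with `w` (`Fin.snoc`) is a basis of `A ⊔ ℤ w` (independent: in a relation
`Σ x_i a_i + y w = 0` we get `y w ∈ A ≤ B`, so `y = 0`), so `rk (A ⊔ ℤ w) = rk A + 1`; the same for `B`.  By BAS the Gram
determinants are those of `Fin.snoc a w` and `Fin.snoc b w`.  Cast to `ℝ` and GSD (`det ≠ 0` by POS):
`gd (A ⊔ ℤ w) = gd A · δ_A`, `gd (B ⊔ ℤ w) = gd B · δ_B`, and `δ_B ≤ δ_A`: `δ_A = |w - Σ y_i a_i|²` for some real `y`, and
each `a_i` is an integral combination of the `b_j`, so `Σ y_i a_i = Σ z_j b_j`, `δ_B ≤ |w - Σ z_j b_j|² = δ_A`.  Hence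
`gd (B ⊔ ℤ w) · gd A = gd B · δ_B · gd A ≤ gd B · δ_A · gd A = gd B · gd (A ⊔ ℤ w)`. -/
def FisStmt : Prop := ∀ (m : ℕ) (A B : Submodule ℤ (Fin m → ℤ)) (w : Fin m → ℤ), A ≤ B →
  (∀ k : ℤ, k ≠ 0 → k • w ∉ B) →
  gd (B ⊔ Submodule.span ℤ {w}) * gd A ≤ gd (A ⊔ Submodule.span ℤ {w}) * gd B ∧
  rk (A ⊔ Submodule.span ℤ {w}) = rk A + 1 ∧ rk (B ⊔ Submodule.span ℤ {w}) = rk B + 1

/-- M_IDX (STRONG, 100): subgroups of the same rank.  Uses BAS.

Proof.  Let `N` be `M` as a submodule of the module `M'` (`M.comap M'.subtype`), `b'` a basis of `M'`, indexed by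
`Fin r`, and `bN` a basis of `N`, also indexed by `Fin r` (`N ≃ M`, the ranks are equal).  `bN_i = Σ_j A i j b'_j`, so by
BAS (transport `bN` to `M` along `N ≃ M`) `gd M = (det A)² gd M'`, and `|det A| = |b'.det bN| = Nat.card (M' ⧸ N)`
(`Submodule.natAbs_det_basis_change`).  `det A ≠ 0` since `bN` is independent (or: `gd M ≠ 0`; `Basis.det` of an
independent family; here `Matrix.exists_vecMul_eq_zero_iff`).  If the quotient has one element, `N = ⊤`, `M = M'`. -/
def IdxStmt : Prop := ∀ (m : ℕ) (M M' : Submodule ℤ (Fin m → ℤ)), M ≤ M' → rk M = rk M' →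
  ∃ k : ℕ, k = Nat.card (M' ⧸ M.comap M'.subtype) ∧ 1 ≤ k ∧ gd M = (k : ℤ) ^ 2 * gd M' ∧
    (k = 1 → M = M')

/-- M_TOR (STRONG, 100): adding a vector of finite order.  Uses IDX.

Proof.  `A' = A ⊔ ℤ w`.  `k A' ≤ A ≤ A'`, and `x ↦ k x` is injective, so `rk A' ≤ rk A ≤ rk A'` (`LinearMap.finrank_le_finrank_of_injective`,
`Submodule.finrank_mono`).  IDX: `gd A = K² gd A'` with `K = card (A' ⧸ A)`.  `K = k`: the map `ℤ → A' ⧸ A`, `j ↦ [j w]`, is
surjective (`A' = A + ℤ w`), and its kernel is `k ℤ`: `j w ∈ A` iff `k ∣ j` (divide with remainder; `k w ∈ A` and the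
minimality of `k`).  So the quotient is `ℤ ⧸ k ℤ` (`Int.quotientSpanEquivZMod`, `Nat.card_zmod`). -/
def TorStmt : Prop := ∀ (m : ℕ) (A : Submodule ℤ (Fin m → ℤ)) (w : Fin m → ℤ) (k : ℕ), 0 < k →
  (k : ℤ) • w ∈ A → (∀ j : ℕ, 0 < j → j < k → (j : ℤ) • w ∉ A) →
  gd A = (k : ℤ) ^ 2 * gd (A ⊔ Submodule.span ℤ {w}) ∧ rk (A ⊔ Submodule.span ℤ {w}) = rk A

/-- M_SUB (STRONG, 120): submodularity of the covolume, modularity of the rank.  Uses FIS, TOR, POS.

Proof.  `C = M ⊓ N`.  Claim: for every finite set `s ⊆ M`, with `A = C ⊔ span s` and `B = N ⊔ span s`: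
`A = B ⊓ M`, `gd B · gd C ≤ gd A · gd N` and `rk B + rk C = rk A + rk N`.  For a generating set `s` of `M` (`M` is finitely
generated) `A = M` and `B = M ⊔ N`, which is the assertion.  `A = B ⊓ M` is the modular law
(`(N ⊔ span s) ⊓ M = span s ⊔ (N ⊓ M)` since `span s ≤ M`; `sup_inf_assoc_of_le`).  Induction (`Finset.induction_on`),
adding `w ∈ M`: `A₁ = A ⊔ ℤ w`, `B₁ = B ⊔ ℤ w`.
Case 1: no `k ≠ 0` has `k w ∈ B`.  FIS: `gd B₁ · gd A ≤ gd A₁ · gd B`, the ranks go up by one.  With the induction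
hypothesis `gd B₁ gd A gd C ≤ gd A₁ gd B gd C ≤ gd A₁ gd A gd N`; divide by `gd A ≥ 1`.
Case 2: let `k ≥ 1` be minimal with `k w ∈ B` (`Nat.find`; change the sign if necessary).  For all `j`: `j w ∈ B` iff
`j w ∈ B ⊓ M = A`, so `k` is minimal for `A` as well, and TOR: `gd A = k² gd A₁`, `gd B = k² gd B₁`, the ranks do not
change.  `k² gd B₁ gd C = gd B gd C ≤ gd A gd N = k² gd A₁ gd N`; divide by `k²`. -/
def SubStmt : Prop := ∀ (m : ℕ) (M N : Submodule ℤ (Fin m → ℤ)),
  gd (M ⊓ N) * gd (M ⊔ N) ≤ gd M * gd N ∧ rk (M ⊓ N) + rk (M ⊔ N) = rk M + rk N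

/-- M_CON (80): the cone point.  Uses SUB, POS.

Proof.  For `M ∈ PM L D` the pair `(rk M, gd M)` satisfies `rk M ≤ m` and `1 ≤ gd M ≤ D ^ rk M ≤ max D 1 ^ m`, so it lies in
a finite set; choose `T ∈ PM L D` with `φ T` maximal, `φ M = D ^ rk M / gd M` (a rational number; a maximum exists as
`φ` has finitely many values on `PM L D`: e.g. `Set.Finite.exists_maximal_wrt` or `Set.exists_max_image` for the image).
Let `M ∈ PM L D`, `I = M ⊓ T`, `S = M ⊔ T`.  SUB: `φ I · φ S ≥ φ M · φ T` (`rk` is modular, `D ≥ 0`, all `gd ≥ 1`).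
`φ I ≤ φ T`: if `I = ⊥` then `φ I = 1 ≤ φ T`; if `I ∈ PM L D`, by maximality; otherwise `I ≤ L`, `I ≠ ⊥`, `φ I < 1 ≤ φ T`.
So `φ T · φ S ≥ φ I · φ S ≥ φ M · φ T` (`φ S ≥ 0`), `φ S ≥ φ M ≥ 1`, i.e. `gd S ≤ D ^ rk S`; `S ≤ L`, `S ≠ ⊥`. -/
def ConStmt : Prop := ∀ (m : ℕ) (L : Submodule ℤ (Fin m → ℤ)) (D : ℕ), (∃ M, PM L D M) →
  ∃ T, PM L D T ∧ ∀ M, PM L D M → PM L D (M ⊔ T)

/-- M_CHN (80): chains are short.  Uses IDX, POS.

Proof.  `rk` is monotone along `l` and takes values in `1..m` (`M ≠ ⊥` has positive rank).  Fix `r` and let `l'` be the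
sublist of the elements of rank `r` (`List.filter`; still strictly increasing), of length `t`.  For consecutive
elements `M < M'` IDX gives `gd M = k² gd M'` with `k ≠ 1`, so `gd M ≥ 4 gd M'`; so `4^(t-1) ≤ gd (first) ≤ D ^ r`, and
`D ^ r < 2 ^ (size D · m)` or `D ^ r ≤ 1`, hence `t ≤ 1 + m · size D`.  Sum over `r`.  (Or one induction: for a strictly
increasing list in `PM L D` with first element `M` of rank `r`: prove
`length ≤ (m - r) (1 + m size D) + 1 + log₂ (gd M)` by induction on the list.) -/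
def ChnStmt : Prop := ∀ (m : ℕ) (L : Submodule ℤ (Fin m → ℤ)) (D : ℕ)
  (l : List (Submodule ℤ (Fin m → ℤ))), (∀ M ∈ l, PM L D M) → l.Pairwise (· < ·) →
  l.length ≤ m * (1 + m * Nat.size D)

/-- M_VEC (50): a short vector.  Uses BAS.

Proof.  `ℤ w` has the basis `w` (one vector; `LinearEquiv.toSpanNonzeroSingleton`), so `rk = 1` and by BAS
`gd = det (w ⬝ w) = w ⬝ w` (`Matrix.det_unique`). -/
def VecStmt : Prop := ∀ (m : ℕ) (L : Submodule ℤ (Fin m → ℤ)) (D : ℕ) (w : Fin m → ℤ), w ≠ 0 →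
  w ∈ L → w ⬝ᵥ w ≤ D → PM L D (Submodule.span ℤ {w})

/-- M_MNK (STRONG, 150): the theorem of Minkowski for cubes.

Proof.  `G` is positive definite, so `G = Rᵀ R` with `R` invertible (`Matrix.posDef_iff_eq_conjTranspose_mul_self` or the
square root), `det G = (det R)²`.  Put `s = |det R| ^ (1/r) > 0`, so `s ^ r = |det R|`.  The set
`K = {x ∈ ℝʳ : |(R x)_i| ≤ s for all i}` is the preimage of the cube `[-s, s]ʳ` under `R`: symmetric, convex, compact, of
volume `(2 s)^r / |det R| = 2 ^ r` (`MeasureTheory.Measure.addHaar_preimage_linearMap` or `Real.volume_preimage` versions;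
`Real.volume_Icc_pi`).  The lattice `ℤʳ` (`Submodule.span ℤ (Set.range (Pi.basisFun ℝ (Fin r)))`) has the fundamental
domain `ZSpan.fundamentalDomain (Pi.basisFun ℝ (Fin r))` of volume `1`
(`ZSpan.isAddFundamentalDomain`, `ZSpan.volume_fundamentalDomain`, or the cube `[0,1)ʳ`).  So
`MeasureTheory.exists_ne_zero_mem_lattice_of_measure_mul_two_pow_le_measure` gives `z ∈ ℤʳ`, `z ≠ 0`, with
`|(R z)_i| ≤ s`, so `z ⬝ G z = |R z|² ≤ r s²`, and `(r s²)^r = r^r (s^r)² = r^r det G`. -/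
def MnkStmt : Prop := ∀ (r : ℕ) (G : Matrix (Fin r) (Fin r) ℝ), 0 < r → G.PosDef →
  ∃ z : Fin r → ℤ, z ≠ 0 ∧
    ((fun i => (z i : ℝ)) ⬝ᵥ (G *ᵥ fun i => (z i : ℝ))) ^ r ≤ (r : ℝ) ^ r * G.det

/-- M_MIN (80): subgroups of small slope contain short vectors.  Uses MNK, POS.

Proof.  `b` = basis of `M` (`Module.finBasis`), `r = rk M > 0` (`M ≠ ⊥`), `G` = the real matrix of `gram b`: positive definite
(`G = V Vᵀ` is positive semidefinite with `det G = gd M ≠ 0`; `Matrix.PosSemidef.posDef_iff_isUnit` or directly).  MNK: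
`z ≠ 0`, `w = Σ z_i b_i ∈ M`, `w ≠ 0` (independence), `w ⬝ w = z ⬝ G z`, `(w ⬝ w)^r ≤ r^r gd M ≤ r^r D^r = (r D)^r`, so
`w ⬝ w ≤ r D` (`pow_le_pow_left_iff`). -/
def MinStmt : Prop := ∀ (m : ℕ) (L : Submodule ℤ (Fin m → ℤ)) (D : ℕ) (M : Submodule ℤ (Fin m → ℤ)),
  PM L D M → ∃ w ∈ M, w ≠ 0 ∧ w ⬝ᵥ w ≤ (rk M : ℤ) * D

/-! ## Hermite normal forms -/

/-- M_HNE (STRONG, 150): existence of the Hermite normal form.

Proof.  For `k : Fin m` put `I_k = {v k : v ∈ M, v i = 0 for all i > k}`, an ideal (additive subgroup) of `ℤ`,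
`I_k = d_k ℤ`, `d_k ≥ 0`.  If `d_k = 0` let the row `k` be `0`.  If `d_k > 0` choose `v ∈ M` with `v k = d_k`, `v i = 0` for
`i > k`, and reduce the coordinates `j < k` with `d_j > 0`, in decreasing order of `j`, by subtracting multiples of the
rows `j` (strong induction on `k`: the rows `j < k` are already constructed; the row `j` has no coordinates above `j`, so
the earlier reductions are not disturbed).  Then `IsHNF`.  `rows B ≤ M` is clear.  `M ≤ rows B`: show by induction on `k`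
that every `v ∈ M` with `v i = 0` for all `i ≥ k` is in `rows B`: `v (k-1) ∈ I_(k-1)`, subtract a multiple of the row
`k - 1` (if `d_(k-1) = 0` then `v (k-1) = 0`). -/
def HneStmt : Prop := ∀ (m : ℕ) (M : Submodule ℤ (Fin m → ℤ)), ∃ B, IsHNF B ∧ rows B = M

/-- M_HNM (90): elements of the row span of a Hermite normal form.

Proof.  Let `v ∈ rows B`, `v = Σ x_k b_k` (`b_k` the row `k`; we may take `x_k = 0` if `b_k = 0`).  (1) If `v ≠ 0`, let `k` be the
last index with `x_k ≠ 0`: then `v i = 0` for `i > k` and `v k = x_k B k k ≠ 0`.  So if `v i = 0` for all `i > k`, then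
`x_i = 0` for `i > k` (with `b_i ≠ 0`), and `v k = x_k B k k`: `B k k ∣ v k` (also if `B k k = 0`).  (2) If moreover `v k = 0`
for some..: (1) applied.  (3) Uniqueness of the coefficients: `Σ x_k b_k = 0` with `x_k = 0` for the zero rows implies
`x = 0` (look at the last nonzero `x_k`). -/
def HnmStmt : Prop := ∀ (m : ℕ) (B : Matrix (Fin m) (Fin m) ℤ), IsHNF B →
  (∀ v ∈ rows B, ∀ k, (∀ i, k < i → v i = 0) → B k k ∣ v k) ∧
  (∀ x : Fin m → ℤ, (∀ k, B k k = 0 → x k = 0) → ∑ k, x k • B k = 0 → x = 0) ∧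
  (∀ v ∈ rows B, ∃ x : Fin m → ℤ, (∀ k, B k k = 0 → x k = 0) ∧ v = ∑ k, x k • B k)

/-- M_HNU (100): uniqueness of the Hermite normal form.  Uses HNM.

Proof.  By HNM `B k k ∣ B' k k` and conversely (the row `k` of `B'` is in `rows B` and vanishes after `k`), both are
nonnegative, so `B k k = B' k k`.  Suppose the rows `k` differ; `v = B k - B' k ∈ rows B`, `v i = 0` for `i ≥ k`; let `j` be the
last index with `v j ≠ 0`: `j < k`, `B j j ∣ v j` by HNM, so `B j j ≠ 0`, and `|v j| < B j j` by `red` for `B` and `B'`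
(`B j j = B' j j`): `v j = 0`, contradiction. -/
def HnuStmt : Prop := ∀ (m : ℕ) (B B' : Matrix (Fin m) (Fin m) ℤ), IsHNF B → IsHNF B' →
  rows B = rows B' → B = B'

/-- M_HND (STRONG, 120): the Gram determinant of the row span.  Uses BAS, HNM.

Proof.  `ι = {k // B k k ≠ 0}`.  By HNM the rows `b_k`, `k ∈ ι`, are a basis of `rows B`, so `rk (rows B) = card ι = piv B` and by
BAS `gd (rows B) = det (gram (b_k)_(k ∈ ι))`.  `GG B` is block diagonal with respect to `ι` and its complement: for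
`B k k = 0` the row `k` of `B` is zero, so the row and the column `k` of `B Bᵀ` are zero and `GG B` has there the unit
vector; `(GG B) i j = b_i ⬝ b_j` on `ι` (`EE` is zero there).  So `det (GG B) = det (gram) · det 1`
(`Matrix.twoBlockTriangular_det`, or `Matrix.det_fromBlocks_zero₁₂` after reindexing with `Equiv.sumCompl`). -/
def HndStmt : Prop := ∀ (m : ℕ) (B : Matrix (Fin m) (Fin m) ℤ), IsHNF B →
  gd (rows B) = (GG B).det ∧ rk (rows B) = piv B

/-- M_GGP (90): the leading minors of `GG B` are positive.  Uses HNM.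

Proof.  Over `ℝ` (or for integer vectors): for `x ≠ 0`, `x ⬝ GG B x = |Bᵀ x|² + Σ_(B k k = 0) x_k² > 0`: if the second sum is zero
then `x_k = 0` for the zero rows, and `Bᵀ x = Σ x_k b_k ≠ 0` (the rows `b_k`, `B k k ≠ 0`, are independent over `ℤ`, and
over `ℝ` as well since the matrix is triangular: look at the last `k` with `x_k ≠ 0`; the `k`-th coordinate is
`x_k B k k ≠ 0`).  So the real matrix is positive definite.  `LB G c` is positive definite too:
`x ⬝ LB G c x = y ⬝ G y + Σ_(i ≥ c) x_i²` with `y = x` on the indices `< c` and `0` elsewhere.  A positive definite integer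
matrix has a positive integer determinant. -/
def GgpStmt : Prop := ∀ (m : ℕ) (B : Matrix (Fin m) (Fin m) ℤ), IsHNF B →
  ∀ c ≤ m, 1 ≤ (LB (GG B) c).det

/-- M_CER (STRONG, 200): the certificate of the leading minors.

Proof.  `G_c = LB G c`, `D_c = det G_c`; `G_0 = 1`, `D_0 = 1`, `G_m = G`.  For `c < m` let `a_c` be the column `c` of the adjugate
of `G_(c+1)`: `G_(c+1) a_c = D_(c+1) e_c`, and `a_c j = 0` for `j > c` (the rows `j > c` of `G_(c+1)` are unit vectors).  The
entry `a_c c` is the cofactor: `G_(c+1)` with the row `c` and the column `c` replaced by the unit vector, which is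
`G_c`: `a_c c = D_c` (`Matrix.adjugate_apply`: the determinant of `G_(c+1)` with the row `c` replaced by `e_c`; subtract
multiples of this row from the others to clear the column `c`, or expand).
Existence: `d c = D_c`, `u c = a_c`; for `i ≤ c` the row `i` of `G_(c+1)` agrees with the row `i` of `G` on the support of
`u c`.
Uniqueness: let `IsCert G d u`.  By induction `d c = D_c` (`d 0 = 1`).  The vector `u c` satisfies `G_(c+1) (u c) = d (c+1) e_c`
(rows `i ≤ c` by `eq`, rows `j > c` by `supp`).  Multiply by the adjugate: `D_(c+1) u c = d (c+1) a_c`.  The entry `c`: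
`D_(c+1) d c = d (c+1) D_c`, so with `d c = D_c ≠ 0` `d (c+1) = D_(c+1)`, and then `u c = a_c` as `D_(c+1) ≠ 0`.
Bounds: all entries are determinants of matrices with entries of absolute value `≤ X` (`X ≥ 1`): `Matrix.det_le`. -/
def CerStmt : Prop := ∀ (m : ℕ) (G : Matrix (Fin m) (Fin m) ℤ),
  (∀ c ≤ m, 1 ≤ (LB G c).det) →
  (∃ d u, IsCert G d u) ∧
  (∀ d u, IsCert G d u → (∀ c : Fin (m + 1), d c = (LB G c).det) ∧ d (Fin.last m) = G.det) ∧
  (∀ d u d' u', IsCert G d u → IsCert G d' u' → d = d' ∧ u = u') ∧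
  ∀ X : ℤ, 1 ≤ X → (∀ i j, |G i j| ≤ X) → ∀ d u, IsCert G d u →
    (∀ c, |d c| ≤ (m.factorial : ℤ) * X ^ m) ∧ ∀ c j, |u c j| ≤ (m.factorial : ℤ) * X ^ m

/-- M_CET (80): the triangular certificate.  Uses CER.

Proof.  For `IsTri G A` put `u c j = A c j`, `d 0 = 1`, `d (i+1) = (A * G) i i` (`Fin.cons`); conversely `A c j = u c j` for
`IsCert G d u`.  As `G` is symmetric, `(A * G) c i = Σ_j A c j G j i = Σ_j G i j u c j`, so `IsTri G A` iff `IsCert G d u`:
`diag` for `c = 0` is `zero`, for `c = i + 1` it is `step`; `up` and the definition of `d` are `eq`.  So existence, uniqueness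
(`u = u'` gives `A = A'`), the value of the determinant (`d (last) = det G`) and the bound follow from CER. -/
def CetStmt : Prop := ∀ (m : ℕ) (G : Matrix (Fin m) (Fin m) ℤ), G.IsSymm →
  (∀ c ≤ m, 1 ≤ (LB G c).det) →
  (∃ A, IsTri G A) ∧ (∀ A A', IsTri G A → IsTri G A' → A = A') ∧
  (∀ A, IsTri G A → ∀ i : Fin m, (i : ℕ) + 1 = m → (A * G) i i = G.det) ∧
  ∀ X : ℤ, 1 ≤ X → (∀ i j, |G i j| ≤ X) → ∀ A, IsTri G A →
    ∀ i j, |A i j| ≤ (m.factorial : ℤ) * X ^ m

/-- M_DMO (80): monotonicity of the determinant.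

Proof.  `A` is positive definite, `A = Rᵀ R`, `R` invertible.  `C = B - A` is positive semidefinite, and
`B = Rᵀ (1 + P) R` with `P = (R⁻¹)ᵀ C R⁻¹` positive semidefinite; `det B = (det R)² det (1 + P) = det A · det (1 + P)`, and
`det (1 + P) ≥ 1`: `1 + P` is Hermitian with the eigenvalues `1 + λ_i`, `λ_i ≥ 0` (diagonalize `P`:
`Matrix.IsHermitian.spectral_theorem`, or use that all eigenvalues `μ` of the Hermitian matrix `1 + P` satisfy
`μ |x|² = x ⬝ (1 + P) x ≥ |x|²`, and `Matrix.IsHermitian.det_eq_prod_eigenvalues`). -/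
def DmoStmt : Prop := ∀ (m : ℕ) (A B : Matrix (Fin m) (Fin m) ℝ), A.PosDef → (B - A).PosSemidef →
  A.det ≤ B.det

/-- M_BND (STRONG, 200): the entries are bounded.  Uses DMO, GGP.

Proof.  `D ≥ 1` (`1 ≤ det (GG B) ≤ D ^ piv B` by GGP and `piv B ≥ 1`), so `det (GG B) ≤ D ^ m`.  Let `Π` be the diagonal
matrix of the pivots (`B k k ≠ 0`), `E = EE B = 1 - Π`, and for a matrix `S` with `S e_k = 0` for the non-pivots `k` let
`N_S = B S + E`.  `N_S N_Sᵀ = B S Sᵀ Bᵀ + E` (`S E = 0`, `E Eᵀ = E`).  If `1 - S Sᵀ` is positive semidefinite, then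
`GG B - N_S N_Sᵀ = B (1 - S Sᵀ) Bᵀ` is positive semidefinite.  So `(det N_S)² ≤ det (GG B) ≤ D ^ m` if `N_S` is invertible
(DMO for `A = N_S N_Sᵀ`, positive definite; otherwise `det N_S = 0` and nothing is to be shown).
(1) `S = Π`: `T = B Π + E` is lower triangular with the diagonal entries `B k k` (pivots) and `1`, so
`(Π_(pivots) B k k)² ≤ D ^ m`; in particular all `B k k ≤ D ^ m`, and `|T i j| ≤ D ^ m` (off the diagonal
`0 ≤ T k j < B j j` for pivots `j`, and `0` otherwise).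
(2) Let `j` be a non-pivot and `h = B e_j` the column `j`; `k` a pivot, `S` = `Π` with the column `k` replaced by `e_j`:
`S Sᵀ` is the diagonal matrix of the pivots other than `k` and of `j`, so `1 - S Sᵀ ≥ 0`.  `N_S` is `T` with the column `k`
replaced by `h`: so `|det (T with column k replaced by h)| ≤ D ^ m` (indeed its square is).  For a non-pivot `k` the
matrix `T` with the column `k` replaced by `h` has the row `k` equal to zero (`h_k = 0` as the row `k` of `B` is zero, and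
`T k j' = 0` for `j' ≠ k`): determinant `0`.
(3) Cramer (`Matrix.mulVec_cramer`): `det T · h = T (cramer T h)`, all entries of `cramer T h` are `≤ D ^ m` in absolute
value and satisfy `(entry)² ≤ D ^ m`, `(T i j)² ≤ D ^ m`; so `|h_i| ≤ |det T| |h_i| ≤ Σ_k |T i k| |cramer_k| ≤ m D ^ m`
(`|T i k| |cramer_k| ≤ D ^ m` since the square of the product is `≤ D ^ (2 m)`; `det T ≥ 1`).
For a pivot column `j` `|B k j| ≤ B j j ≤ D ^ m ≤ m D ^ m`. -/
def BndStmt : Prop := ∀ (m : ℕ) (L : Submodule ℤ (Fin m → ℤ)) (D : ℕ)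
  (B : Matrix (Fin m) (Fin m) ℤ), PP L D B → 1 ≤ D ∧ ∀ i j, |B i j| ≤ (m : ℤ) * (D : ℤ) ^ m

/-- M_INC (STRONG, 150): inclusion of row spans, with unique certificates.  Uses HNM.

Proof.  (1) HNM: each row of `B` in `rows B'` is `Σ_j x_j b'_j` with `x_j = 0` for the zero rows `j` of `B'`.  (2) Uniqueness by
the second part of HNM.  (3) Bound: let `Π'`, `E' = EE B'` be as in BND for `B'`, `T' = B' Π' + E'`, lower triangular with
positive diagonal, `det T' ≥ 1`.  `X E' = 0`, so `X T' = X B' Π' = B Π'`, so `det T' · X = B Π' adj T'`; the entries of the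
adjugate are determinants of matrices with entries `≤ b` in absolute value (`b ≥ 1`; `Matrix.adjugate_apply`,
`Matrix.det_le`), so `|X k j| ≤ m · b · m! b^m`. -/
def IncStmt : Prop := ∀ (k m : ℕ) (B : Matrix (Fin k) (Fin m) ℤ) (B' : Matrix (Fin m) (Fin m) ℤ),
  IsHNF B' →
  (rows B ≤ rows B' ↔ ∃ X : Matrix (Fin k) (Fin m) ℤ, B = X * B' ∧
    ∀ i j, B' j j = 0 → X i j = 0) ∧
  (∀ X X' : Matrix (Fin k) (Fin m) ℤ, B = X * B' → (∀ i j, B' j j = 0 → X i j = 0) →
    B = X' * B' → (∀ i j, B' j j = 0 → X' i j = 0) → X = X') ∧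
  ∀ b : ℤ, 1 ≤ b → (∀ i j, |B i j| ≤ b) → (∀ i j, |B' i j| ≤ b) →
    ∀ X : Matrix (Fin k) (Fin m) ℤ, B = X * B' → (∀ i j, B' j j = 0 → X i j = 0) →
      ∀ i j, |X i j| ≤ (m : ℤ) * b * ((m.factorial : ℤ) * b ^ m)

/-- M_INA (120): inclusion in the lattice of the instance.  Uses POS.

Proof.  (1) `rows B ≤ rows A` iff every row of `B` is an integral combination of the rows of `A`
(`Submodule.mem_span_range_iff_exists_fun`).  (2) Uniqueness: the rows of `A` are independent.  (3) Bound: `G = A Aᵀ = gram A`,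
`det G ≥ 1` (POS), `X G = B Aᵀ`, `det G · X = B Aᵀ adj G`; the entries of `B Aᵀ` are `≤ m a b`, those of `G` `≤ m a²`, those
of `adj G` `≤ n! (m a²)^n` (`Matrix.adjugate_apply`, `Matrix.det_le`; if `m = 0` then `n = 0` by independence, nothing to
show; `m a² ≥ 1` otherwise). -/
def InaStmt : Prop := ∀ (k n m : ℕ) (B : Matrix (Fin k) (Fin m) ℤ) (A : Matrix (Fin n) (Fin m) ℤ),
  LinearIndependent ℤ (fun i => A i) →
  (rows B ≤ rows A ↔ ∃ X : Matrix (Fin k) (Fin n) ℤ, B = X * A) ∧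
  (∀ X X' : Matrix (Fin k) (Fin n) ℤ, B = X * A → B = X' * A → X = X') ∧
  ∀ a b : ℤ, 1 ≤ a → 0 ≤ b → (∀ i j, |A i j| ≤ a) → (∀ i j, |B i j| ≤ b) →
    ∀ X : Matrix (Fin k) (Fin n) ℤ, B = X * A →
      ∀ i j, |X i j| ≤ (n : ℤ) * (m * a * b) * ((n.factorial : ℤ) * (m * a ^ 2) ^ n)

/-! ## The number of chains -/

/-- M_PAR (120): parity of the number of chains.

Proof.  Finite: a strictly increasing list has no repetitions, entries in the finite set `P` (`List.Nodup`, length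
`≤ card P`).  Involution without fixed points on the nonempty lists together with the empty list (so the number of all
lists is even, and the number of nonempty ones odd): let `g x = x ⊔ T`.  For a list `l` (strictly increasing, entries in
`P`): if all entries are `≥ T`, insert or remove `T` at the beginning.  Otherwise let `z` be the last entry which is not
`≥ T` (the entries after it are `≥ T` and `> z`, so `≥ g z`; the entries before `z` are `< z`, not `≥ T`), `g z ∈ P`,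
`g z > z`: insert or remove `g z` directly after `z`.  `z` is not changed by this. -/
def ParStmt : Prop := ∀ (α : Type) [SemilatticeSup α] (P : Set α), P.Finite → ∀ T ∈ P,
  (∀ x ∈ P, x ⊔ T ∈ P) →
  {l : List α | (∀ x ∈ l, x ∈ P) ∧ l.Pairwise (· < ·)}.Finite ∧
  Odd {l : List α | l ≠ [] ∧ (∀ x ∈ l, x ∈ P) ∧ l.Pairwise (· < ·)}.ncard

/-- M_CNT (100): the number of chains of `PP L D`.  Uses PAR, CON, BND, HNE, HNU, HND, VEC, MIN, CHN.

Proof.  `rows` is a bijection from `PP L D` onto `PM L D`: HNE, HNU, HND (`B ≠ 0` iff `rows B ≠ ⊥`).  `PP L D` is finite by BND (entries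
in a finite interval), so `PM L D` is finite.  `List.map rows` is a bijection from `chL L D` onto the nonempty chains of
`PM L D` (injective on lists with entries in `PP L D`).  If `w ≠ 0`, `w ∈ L`, `w ⬝ w ≤ D`, then `PM L D` has an element (VEC),
CON gives `T`, and PAR.  If all nonzero `w ∈ L` have `w ⬝ w > (rk L) D`, then `PM L D` is empty: for `M ∈ PM L D` MIN gives
`w ∈ M ≤ L` with `w ⬝ w ≤ rk M · D ≤ rk L · D` (`Submodule.finrank_mono`).  Length: CHN for `l.map rows`. -/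
def CntStmt : Prop := ∀ (m : ℕ) (L : Submodule ℤ (Fin m → ℤ)) (D : ℕ),
  (chL L D).Finite ∧
  (∀ l ∈ chL L D, l.length ≤ m * (1 + m * Nat.size D)) ∧
  ((∃ w ∈ L, w ≠ 0 ∧ w ⬝ᵥ w ≤ (D : ℤ)) → Odd (chL L D).ncard) ∧
  ((∀ w ∈ L, w ≠ 0 → (rk L : ℤ) * D < w ⬝ᵥ w) → chL L D = ∅) ∧
  (Odd (chL L D).ncard ∨ chL L D = ∅)

end

end Pool.Agent.LAT
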