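import Pool.Agent.Helper7_PAR.Defs

/-!
# The class SPP for promise problems (squad LAT, MP_0fc649_lc)
-/

set_option autoImplicit false

namespace Pool.Agent.LAT

open Pool.Agent.PAR

/-- The promise problem with the positive words `Y` and the negative words `N` is in the class
SPP: there are predicates `V` and `σ` of pairs of words, decidable in polynomial time, and a
polynomial `q` such that the number of the words `y` with `|y| ≤ q |x|`, `V (x, y)` and `σ (x, y)`
minus the number of the words `y` with `|y| ≤ q |x|`, `V (x, y)` and not `σ (x, y)` is `1` for all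
`x ∈ Y` and `0` for all `x ∈ N`. -/
def InSPP (Y N : Set Word) : Prop :=
  ∃ (V σ : Word × Word → Bool) (q : Polynomial ℕ), PolyPair V ∧ PolyPair σ ∧
    (∀ x ∈ Y, {y ∈ witnesses V q x | σ (x, y) = true}.ncard =
      {y ∈ witnesses V q x | σ (x, y) = false}.ncard + 1) ∧
    ∀ x ∈ N, {y ∈ witnesses V q x | σ (x, y) = true}.ncard =
      {y ∈ witnesses V q x | σ (x, y) = false}.ncard

end Pool.Agent.LAT
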