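import Pool.Agent.LAT.DefsC
import Pool.Agent.LAT.StmtsM

/-!
# Squad LAT (MP_0fc649_lc), part 2 (closest vector problem), block M (mathematics): statements

All rows are independent: the statements of the rows in `Uses` are hypotheses `(h : XxxStmt)`.
Complete proofs are in the docstrings.  `phi M = D ^ rk M / gd M`.
-/

set_option autoImplicit false

namespace Pool.Agent.LAT

open Matrix

noncomputable section

/-- `phi M = D ^ rk M / gd M` -/
def ph {m : ℕ} (D : ℕ) (M : Submodule ℤ (Fin m → ℤ)) : ℚ := (D : ℚ) ^ rk M / (gd M : ℚ)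

/-- `M` is the largest maximizer of `phi` on the subgroups of `L` (in local form) -/
structure Opt {m : ℕ} (L : Submodule ℤ (Fin m → ℤ)) (D : ℕ) (M : Submodule ℤ (Fin m → ℤ)) :
    Prop where
  le : M ≤ L
  up : ∀ N, M < N → N ≤ L → ph D N < ph D M
  down : ∀ N, N < M → ph D N ≤ ph D M

/-- the subgroups above `M` with `phi` at least `phi M` -/
def US {m : ℕ} (L : Submodule ℤ (Fin m → ℤ)) (D : ℕ) (M : Submodule ℤ (Fin m → ℤ)) :
    Set (Submodule ℤ (Fin m → ℤ)) := {N | M < N ∧ N ≤ L ∧ ph D M ≤ ph D N}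

/-- the subgroups below `M` with `phi` larger than `phi M` -/
def WS {m : ℕ} (D : ℕ) (M : Submodule ℤ (Fin m → ℤ)) : Set (Submodule ℤ (Fin m → ℤ)) :=
  {N | N < M ∧ ph D M < ph D N}

/-- the chains in `S`, the empty one included -/
def chns {α : Type} [Preorder α] (S : Set α) : Set (List α) :=
  {l | (∀ x ∈ l, x ∈ S) ∧ l.Pairwise (· < ·)}

/-- an integer vector as a real vector -/
def rv {m : ℕ} (w : Fin m → ℤ) : Fin m → ℝ := fun j => (w j : ℝ)

/-- the square of the norm of a real vector -/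
def sq {m : ℕ} (p : Fin m → ℝ) : ℝ := p ⬝ᵥ p

/-- the real span of a subgroup -/
def RS {m : ℕ} (M : Submodule ℤ (Fin m → ℤ)) : Submodule ℝ (Fin m → ℝ) :=
  Submodule.span ℝ (rv '' (M : Set (Fin m → ℤ)))

/-! ## The function `phi` and the largest maximizer -/

/-- PHS (60): properties of `phi`.  Uses SUB, POS.

Proof.  `rk ⊥ = 0`, `gd ⊥ = 1`, `gd M ≥ 1` (POS).  Last part: by SUB `D ^ (rk M + rk N) = D ^ (rk (M ⊓ N) + rk (M ⊔ N))`
and `gd (M ⊓ N) gd (M ⊔ N) ≤ gd M gd N` (`div_mul_div_comm`, `div_le_div_of_nonneg_left`). -/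
def PhsStmt : Prop := ∀ m D : ℕ, ph D (⊥ : Submodule ℤ (Fin m → ℤ)) = 1 ∧
  (∀ M : Submodule ℤ (Fin m → ℤ), 0 ≤ ph D M) ∧
  (∀ M : Submodule ℤ (Fin m → ℤ), 1 ≤ ph D M ↔ gd M ≤ (D : ℤ) ^ rk M) ∧
  ∀ M N : Submodule ℤ (Fin m → ℤ), ph D M * ph D N ≤ ph D (M ⊓ N) * ph D (M ⊔ N)

/-- PHF (60): finiteness.  Uses BND, HNE, HND, PHS.

Proof.  `M = ⊥` or `PM L D M`; the latter are finitely many: `M = rows B` with `PP L D B`, entries bounded by BND (as in
Helper72_LAT/CNT.lean, `pp_finite`, `pp_iff`). -/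
def PhfStmt : Prop := ∀ (m : ℕ) (L : Submodule ℤ (Fin m → ℤ)) (D : ℕ),
  {M | M ≤ L ∧ 1 ≤ ph D M}.Finite

/-- OPT (100): the largest maximizer.  Uses PHS, PHF.

Proof.  The set `{M ≤ L : phi M ≥ 1}` is finite and contains `⊥`; let `c` be the maximum of `phi` on it (so on all `M ≤ L`).
Maximizers are closed under `⊔`: `c c ≤ phi (M ⊓ N) phi (M ⊔ N) ≤ c phi (M ⊔ N)`.  Submodules of `ℤᵐ` satisfy the ascending
chain condition (`IsNoetherian`; or: choose in the finite set of maximizers a maximal one, `Set.Finite.exists_maximal`):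
a maximal maximizer `M`.  (up) a subgroup `N > M`, `N ≤ L`, is not a maximizer.  (down) clear.
Uniqueness: let `Opt L D M'`; `phi (M' ⊓ M) ≤ phi M'` (down, or equality), so by PHS `phi (M' ⊔ M) ≥ phi M = c` (`phi M' > 0`:
`phi M' ≥ phi ⊥ = 1` by down or `M' = ⊥`), `M' ⊔ M` is a maximizer, so it is `M` (up for `M`), `M' ≤ M`; if `M' < M` then `up` for
`M'` gives `phi M < phi M'`: contradiction to `phi M = c`. -/
def OptStmt : Prop := ∀ (m : ℕ) (L : Submodule ℤ (Fin m → ℤ)) (D : ℕ),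
  ∃ M, Opt L D M ∧ 1 ≤ ph D M ∧ ∀ M', Opt L D M' → M' = M

/-- EVU (100): chains above `M`.  Uses PHS, PHF, PAR.

Proof.  `U = US L D M` is finite (PHF).  If it is not empty, let `T` be a maximizer of `phi` on `U`.  For `N ∈ U`, `I = N ⊓ T ≥ M`:
`phi I ≤ phi T` (`I = M`: `phi M ≤ phi T`; `I ∈ U`: the choice of `T`; otherwise `M < I ≤ L`, `phi I < phi M ≤ phi T`), so by PHS
`phi N phi T ≤ phi I phi (N ⊔ T) ≤ phi T phi (N ⊔ T)`, `phi T ≥ 1`: `phi (N ⊔ T) ≥ phi N ≥ phi M`, `N ⊔ T ∈ U`.  PAR: the number of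
the nonempty chains is odd; with the empty one: even. -/
def EvuStmt : Prop := ∀ (m : ℕ) (L : Submodule ℤ (Fin m → ℤ)) (D : ℕ) (M : Submodule ℤ (Fin m → ℤ)),
  M ≤ L → 1 ≤ ph D M →
  (chns (US L D M)).Finite ∧ (US L D M = ∅ ∨ Even (chns (US L D M)).ncard)

/-- EVW (110): chains below `M`.  Uses PHS, PHF, PAR.

Proof.  `W = WS D M` is finite (PHF with `L = M`).  If it is not empty, let `T` be a maximizer of `phi` on `W`.  For `N ∈ W`,
`J = N ⊔ T ≤ M`: `phi J ≤ phi T` (`J = M`: `phi M < phi T`; `J ∈ W`: the choice of `T`; otherwise `J < M`,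
`phi J ≤ phi M < phi T`), so by PHS `phi N phi T ≤ phi (N ⊓ T) phi J ≤ phi (N ⊓ T) phi T`: `phi (N ⊓ T) ≥ phi N > phi M`,
`N ⊓ T < M`: `N ⊓ T ∈ W`.  PAR for the dual order (`(Submodule ℤ (Fin m → ℤ))ᵒᵈ`, a `SemilatticeSup`), and `List.reverse` is
a bijection between the chains for the dual order and the chains. -/
def EvwStmt : Prop := ∀ (m D : ℕ) (M : Submodule ℤ (Fin m → ℤ)), 1 ≤ ph D M →
  (chns (WS D M)).Finite ∧ (WS D M = ∅ ∨ Even (chns (WS D M)).ncard)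

/-! ## Distances -/

/-- PRJ (60): the orthogonal projection.

Proof.  The bilinear form `dotProduct` on `ℝᵐ` is positive definite, so its restriction to `V` is nondegenerate and `V` and
its orthogonal complement are complementary (`LinearMap.BilinForm.isCompl_orthogonal_of_restrict_nondegenerate`), or
transport to `EuclideanSpace ℝ (Fin m)` (`Submodule.exists_norm_eq_iInf_of_complete_subspace`, `V.starProjection`), or
minimize `sq (w - p)` on `V`. -/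
def PrjStmt : Prop := ∀ (m : ℕ) (V : Submodule ℝ (Fin m → ℝ)) (w : Fin m → ℝ),
  ∃ p ∈ V, ∀ q ∈ V, (w - p) ⬝ᵥ q = 0

/-- GDW (STRONG, 120): Gram determinant and distance to the real span.  Uses BAS, POS, GSD.

Proof.  `b : Fin r → ℤᵐ` a basis of `M` (`Module.finBasis`); `RS M` is the real span of the `rv (b i)`.  `Fin.snoc b w` is a
basis of `M ⊔ ℤ w` (as in FIS, Helper21_LAT/FIS.lean).  BAS: `gd (M ⊔ ℤ w) = det (gram (Fin.snoc b w))`, `gd M = det (gram b)`;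
cast to `ℝ` (`rgram (rv ∘ b)`), GSD (`gd M ≠ 0` by POS): `gd (M ⊔ ℤ w) = gd M δ`, `δ ≤ sq (rv w - Σ y_i rv (b i))` for all real
`y`, with equality for one `y`. -/
def GdwStmt : Prop := ∀ (m : ℕ) (M : Submodule ℤ (Fin m → ℤ)) (w : Fin m → ℤ),
  (∀ k : ℤ, k ≠ 0 → k • w ∉ M) →
  (∀ p ∈ RS M, (gd (M ⊔ Submodule.span ℤ {w}) : ℝ) ≤ gd M * sq (rv w - p)) ∧
  ∃ p ∈ RS M, (gd (M ⊔ Submodule.span ℤ {w}) : ℝ) = gd M * sq (rv w - p)

/-- EXB (STRONG, 120): extension of a basis of a saturated subgroup.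

Proof.  `Q = M ⧸ N` (`N.comap M.subtype`, or `N.submoduleOf M`) is finitely generated and torsion-free, so free
(`Module.free_of_finite_type_torsion_free'`); lift a basis of `Q` to `c : Fin k → M`, take a basis `a : Fin s → N`.  `Sum.elim a c` is
a basis of `M` (a relation maps to a relation in `Q`, so the coefficients of the `c` vanish, then those of the `a`; every
element of `M` differs from a combination of the `c` by an element of `N`).  Or: Smith normal form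
(`Submodule.smithNormalForm`): `bN_i = a_i bM_(f i)`, and `bM_(f i) ∈ N` by saturation. -/
def ExbStmt : Prop := ∀ (m : ℕ) (N M : Submodule ℤ (Fin m → ℤ)), N ≤ M →
  (∀ w ∈ M, ∀ k : ℤ, k ≠ 0 → k • w ∈ N → w ∈ N) →
  ∃ (s k : ℕ) (a : Fin s → Fin m → ℤ) (c : Fin k → Fin m → ℤ),
    LinearIndependent ℤ (Sum.elim a c) ∧ Submodule.span ℤ (Set.range a) = N ∧
    Submodule.span ℤ (Set.range (Sum.elim a c)) = M ∧ s = rk N ∧ s + k = rk M

/-- QMK (STRONG, 200): Minkowski for the quotient.  Uses EXB, BAS, POS, MNK.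

Proof.  `a, c` from EXB, `k = rk M - rk N > 0` (`N ≠ M`: if `k = 0` then `span a = M`).  Real Gram matrix of `Sum.elim a c`:
blocks `(G₁, H; Hᵀ, G₂)`, `det G₁ = gd N ≥ 1`, the whole determinant is `gd M` (BAS), `S = G₂ - Hᵀ G₁⁻¹ H` (Schur complement),
`gd M = gd N det S` (`Matrix.det_fromBlocks₁₁`), `S` is positive definite (the whole matrix is positive definite:
`Matrix.PosDef.fromBlocks₁₁`-type lemmas, or: `z S z` is the value of the whole form at `(- G₁⁻¹ H z, z)`).  `phi N ≤ phi M` and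
`D > 0` give `gd M ≤ D ^ k gd N`, so `det S ≤ D ^ k`.  MNK: `z ∈ ℤᵏ`, `z ≠ 0`, `(z S z) ^ k ≤ k ^ k det S ≤ (k D) ^ k`, so
`z S z ≤ k D`.  `w = Σ z_i c_i ∈ M`, `w ∉ N` (independence).  `Sum.elim a (fun _ : Unit => w)` is a basis of `N ⊔ ℤ w`, its Gram
matrix has the blocks `(G₁, H z; (H z)ᵀ, z G₂ z)`, so `gd (N ⊔ ℤ w) = gd N (z G₂ z - (H z) G₁⁻¹ (H z)) = gd N (z S z)`. -/
def QmkStmt : Prop := ∀ (m D : ℕ) (N M : Submodule ℤ (Fin m → ℤ)), 0 < D → N ≤ M → N ≠ M →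
  (∀ w ∈ M, ∀ k : ℤ, k ≠ 0 → k • w ∈ N → w ∈ N) → ph D N ≤ ph D M →
  ∃ w ∈ M, w ∉ N ∧
    gd (N ⊔ Submodule.span ℤ {w}) ≤ ((rk M - rk N : ℕ) : ℤ) * D * gd N

/-- SQS (STRONG, 150): a sequence of vectors with small distances.  Uses QMK, GDW, POS.

Proof.  `r = rk M`.  For a subgroup `N ≤ M` let `sat N = {w ∈ M : k w ∈ N for some k ≠ 0}`, a subgroup of `M`, saturated in `M`,
of the same rank as `N`, with `RS (sat N) = RS N`.  Construct `w_0, w_1, ..` in `M` such that for `t ≤ r` `N_t = sat (span ℤ {w_j : j < t})` has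
rank `t` and `RS N_t` = the real span of the `rv (w_j)`, `j < t`.  Step `t < r`: `N_t ≠ M`, `phi N_t ≤ phi M` (hypothesis), QMK gives
`w_t ∈ M`, `w_t ∉ N_t` with `gd (N_t ⊔ ℤ w_t) ≤ (r - t) D gd N_t`; no multiple of `w_t` is in `N_t`; GDW gives `q ∈ RS N_t` with
`gd (N_t ⊔ ℤ w_t) = gd N_t sq (rv w_t - q)`, so `sq (rv w_t - q) ≤ (r - t) D`.  `N_(t+1) = sat (N_t ⊔ ℤ w_t)` has rank `t + 1`.  `N_r = M`: it
has rank `r` and is saturated in `M`. -/
def SqsStmt : Prop := ∀ (m D : ℕ) (M : Submodule ℤ (Fin m → ℤ)), 0 < D →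
  (∀ N, N < M → ph D N ≤ ph D M) → ∃ w : ℕ → Fin m → ℤ, (∀ i, w i ∈ M) ∧
    (∀ i < rk M, ∃ q ∈ Submodule.span ℝ ((fun j => rv (w j)) '' {j | j < i}),
      sq (rv (w i) - q) ≤ ((rk M : ℝ) - i) * D) ∧
    RS M ≤ Submodule.span ℝ ((fun j => rv (w j)) '' {j | j < rk M})

/-- NPL (STRONG, 110): the nearest plane algorithm.  Uses PRJ.

Proof.  Induction on `r`.  `r = 0`: `p = 0`.  Step: `V` = the span of the `rv (w_j)`, `j < r`; `p = y + t rv (w_r)` with `y ∈ V`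
(`{j | j < r + 1} = insert r {j | j < r}`, `Submodule.mem_span_insert`).  PRJ: `P ∈ V`, `w' = rv (w_r) - P` orthogonal to `V`;
`sq w' ≤ sq (rv (w_r) - q) ≤ β_r`, because `rv (w_r) - q = w' + (P - q)` is an orthogonal sum.  `c_r = round t`,
`|t - c_r| ≤ 1/2`.  `p' = y + (t - c_r) P ∈ V`; induction: `c_j`, `j < r`, with `sq (p' - Σ_(j<r) c_j w_j) ≤ Σ_(i<r) β_i / 4`.
`p - Σ_(j≤r) c_j w_j = (p' - Σ_(j<r) c_j w_j) + (t - c_r) w'` is an orthogonal sum, `sq ≤ Σ_(i<r) β_i / 4 + β_r / 4`.  (Change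
the function `c` at `r`: `Function.update`.) -/
def NplStmt : Prop := ∀ (m r : ℕ) (w : ℕ → Fin m → ℤ) (β : ℕ → ℝ),
  (∀ i < r, ∃ q ∈ Submodule.span ℝ ((fun j => rv (w j)) '' {j | j < i}), sq (rv (w i) - q) ≤ β i) →
  ∀ p ∈ Submodule.span ℝ ((fun j => rv (w j)) '' {j | j < r}), ∃ c : ℕ → ℤ,
    sq (p - ∑ j ∈ Finset.range r, (c j : ℝ) • rv (w j)) ≤ (∑ i ∈ Finset.range r, β i) / 4

/-- COV (60): the covering radius.  Uses SQS, NPL, PHS.

Proof.  `D = 0`: `phi ⊥ = 1` and `phi M = 0` for `M ≠ ⊥` (rank positive), so `M = ⊥` by the hypothesis, `p = 0`, `u = 0`.  `D > 0`: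
`w` from SQS, NPL with `β i = (r - i) D`: `u = Σ c_j w_j ∈ M`, and `Σ_(i<r) (r - i) = r (r + 1) / 2`. -/
def CovStmt : Prop := ∀ (m D : ℕ) (M : Submodule ℤ (Fin m → ℤ)),
  (∀ N, N < M → ph D N ≤ ph D M) → ∀ p ∈ RS M, ∃ u ∈ M,
    sq (p - rv u) ≤ (rk M : ℝ) * (rk M + 1) * D / 8

/-- DSR (120): the certificate of the distance.  Uses GGP.

Proof.  `G = GG B` is symmetric with `det G ≥ 1` (GGP for `c = m`: `LB G m = G`).  (1) `y = -(B g)ᵀ adj G`
(`Matrix.adjugate_mul`).  (2) `(y - y') G = 0`, multiply by `adj G`.  (3) Over `ℝ` let `h = G⁻¹ (B g)`.  For the zero rows `k` of `B`: the row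
`k` of `G` is the unit vector and `(B g)_k = 0`, so `h_k = 0`.  `p = Σ h_k b_k ∈ RS (rows B)`;
`B (g - p) = B g - B Bᵀ h = B g - (G - EE B) h = EE B h = 0`, so `g - p` is orthogonal to the rows and to `RS (rows B)` (its
elements are real combinations of the rows).  `y = - det G h` (by (2)), and
`sq (g - p) = (g - p) ⬝ g = g ⬝ g - h ⬝ (B g)`, so `det G sq (g - p) = det G (g ⬝ g) + y ⬝ (B g)`. -/
def DsrStmt : Prop := ∀ (m : ℕ) (B : Matrix (Fin m) (Fin m) ℤ) (g : Fin m → ℤ), IsHNF B →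
  (∃ y : Fin m → ℤ, y ᵥ* GG B = -(GG B).det • (B *ᵥ g)) ∧
  (∀ y y' : Fin m → ℤ, y ᵥ* GG B = -(GG B).det • (B *ᵥ g) →
    y' ᵥ* GG B = -(GG B).det • (B *ᵥ g) → y = y') ∧
  ∀ y : Fin m → ℤ, y ᵥ* GG B = -(GG B).det • (B *ᵥ g) →
    ∃ p ∈ RS (rows B), (∀ q ∈ RS (rows B), (rv g - p) ⬝ᵥ q = 0) ∧
      ((y ⬝ᵥ (B *ᵥ g) + (GG B).det * (g ⬝ᵥ g) : ℤ) : ℝ) = (GG B).det * sq (rv g - p)

/-- RDU (90): reduced representatives.  Uses HNM.

Proof.  Existence: downward induction: for `k ≤ m` there is `u` with `w - u ∈ rows B` and the bounds for all `j ≥ k`; step from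
`k + 1` to `k`: subtract `⌊u k / B k k⌋` times the row `k` (if `B k k > 0`; `Int.emod_nonneg`, `Int.emod_lt_of_pos`), which vanishes
after `k`.  Uniqueness: `x = u - u' ∈ rows B`; if `x ≠ 0` let `j` be the last index with `x j ≠ 0`: `B j j ∣ x j` by HNM, so
`B j j ≠ 0`, `B j j > 0`, `|x j| < B j j`: contradiction. -/
def RduStmt : Prop := ∀ (m : ℕ) (B : Matrix (Fin m) (Fin m) ℤ) (w : Fin m → ℤ), IsHNF B →
  ∃ u : Fin m → ℤ, (∀ j, 0 < B j j → 0 ≤ u j ∧ u j < B j j) ∧ w - u ∈ rows B ∧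
    ∀ u' : Fin m → ℤ, (∀ j, 0 < B j j → 0 ≤ u' j ∧ u' j < B j j) → w - u' ∈ rows B → u' = u

/-- UNQ (80): unique decoding.  Uses GDW, TOR, POS.

Proof.  Suppose `w ∉ M`, `N = M ⊔ ℤ w`, `M < N ≤ L`, so `phi N < phi M` (`up`).  Case 1: `k w ∈ M` for some `k ≠ 0`; minimal `k ≥ 1`, `k ≥ 2`;
TOR: `gd M = k² gd N`, the same rank: `phi N ≥ phi M`: contradiction.  Case 2: no such `k`: GDW:
`gd N ≤ gd M sq (rv w - p) ≤ gd M 4 d`, and `rk N = rk M + 1` (FIS with `A = B = M`, or directly), so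
`D ^ (rk M) gd N ≤ D ^ (rk M + 1) gd M` with `D = 4 d`, i.e. `phi M ≤ phi N`: contradiction.  (The rank: `rk N = rk M + 1` is part of
`FisStmt` for `A = B = M`; you may use `FisStmt`.) -/
def UnqStmt : Prop := ∀ (m : ℕ) (L : Submodule ℤ (Fin m → ℤ)) (d : ℕ)
  (M : Submodule ℤ (Fin m → ℤ)), Opt L (4 * d) M → ∀ w ∈ L,
  (∃ p ∈ RS M, sq (rv w - p) ≤ 4 * d) → w ∈ M

/-! ## The tails of the certificates -/

/-- TLU (90): the tail is unique for the optimal `M`.  Uses DSR, RDU, UNQ, INA, GGP.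

Proof.  `g = v - u`, `g' = v - u'`; DSR (3) and `det > 0`: `p, p' ∈ RS (rows B)` with `sq (rv g - p) ≤ d`, `sq (rv g' - p') ≤ d`.
`w = u - u' = g' - g ∈ rows A`; `rv w - (p' - p) = (rv g' - p') - (rv g - p)`, its `sq` is `≤ 4 d` (`sq (a - b) ≤ 2 sq a + 2 sq b`).
UNQ: `w ∈ rows B`.  RDU (uniqueness): `u = u'`.  `z = z'`: the rows of `A` are independent.  `y = y'`: DSR (2). -/
def TluStmt : Prop := ∀ (n m d : ℕ) (A : Matrix (Fin n) (Fin m) ℤ) (v : Fin m → ℤ)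
  (B : Matrix (Fin m) (Fin m) ℤ), LinearIndependent ℤ (fun i => A i) → IsHNF B →
  Opt (rows A) (4 * d) (rows B) → ∀ (u u' : Fin m → ℤ) (z z' : Fin n → ℤ) (y y' : Fin m → ℤ),
    Tail A v d B u z y → Tail A v d B u' z' y' → u = u' ∧ z = z' ∧ y = y'

/-- TLE (80): existence of a tail.  Uses DSR, RDU, GGP.

Proof.  `u₀ = c A ∈ rows A`; `u` = the reduced representative of `u₀` (RDU), `u₀ - u ∈ rows B ≤ rows A`, so `u ∈ rows A`,
`u = z A`.  `y` from DSR (1) for `g = v - u`.  DSR (3): `p` orthogonal; `rv g - p` is the orthogonal component of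
`rv (v - u₀) = rv g - rv (u₀ - u)`, and `rv (v - u₀) = (rv g - p) + (p - rv (u₀ - u))`, an orthogonal sum:
`sq (rv g - p) ≤ sq (rv (v - u₀)) ≤ d`; multiply by `det > 0`. -/
def TleStmt : Prop := ∀ (n m d : ℕ) (A : Matrix (Fin n) (Fin m) ℤ) (v : Fin m → ℤ)
  (B : Matrix (Fin m) (Fin m) ℤ), IsHNF B → rows B ≤ rows A →
  (∃ c : Fin n → ℤ, (v - c ᵥ* A) ⬝ᵥ (v - c ᵥ* A) ≤ (d : ℤ)) →
  ∃ (u : Fin m → ℤ) (z : Fin n → ℤ) (y : Fin m → ℤ), Tail A v d B u z y

/-- TLN (80): a tail gives a close vector.  Uses DSR, COV, GGP.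

Proof.  `g = v - u`, `p` from DSR (3), `sq (rv g - p) ≤ d`.  COV for `M = rows B`: `u' ∈ rows B ≤ rows A` with
`sq (p - rv u') ≤ r (r + 1) 4 d / 8`, `r = rk (rows B) ≤ n` (`Submodule.finrank_mono`, `rk (rows A) ≤ n`).
`rv (v - (u + u')) = (rv g - p) + (p - rv u')` is an orthogonal sum, so its `sq` is `≤ d + r (r + 1) d / 2 ≤ (1 + n (n + 1) / 2) d`
(`n (n + 1)` is even); `u + u' = c A`. -/
def TlnStmt : Prop := ∀ (n m d : ℕ) (A : Matrix (Fin n) (Fin m) ℤ) (v : Fin m → ℤ)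
  (B : Matrix (Fin m) (Fin m) ℤ), IsHNF B → Opt (rows A) (4 * d) (rows B) →
  ∀ (u : Fin m → ℤ) (z : Fin n → ℤ) (y : Fin m → ℤ), Tail A v d B u z y →
  ∃ c : Fin n → ℤ, (v - c ᵥ* A) ⬝ᵥ (v - c ᵥ* A) ≤ ((1 + n * (n + 1) / 2 : ℕ) : ℤ) * d

/-- BNU (STRONG, 200): the entries of `u` are bounded.  Uses HNM.

Proof.  `p = Σ x_k b_k` with `x_k = 0` for the zero rows (`p` is a real combination of elements of `rows B`, so of the
rows).  `g = v - u`.  `|g_j - p_j|² ≤ sq (rv g - p) ≤ d ≤ b²`, so `|g_j - p_j| ≤ b` for all `j`.  For the pivots `j` (`B j j > 0`):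
`|g_j| ≤ |v_j| + |u_j| ≤ 2 b`, `|p_j| ≤ 3 b`.  Let `T = B Π + E` be as in BND (`Π` = the diagonal matrix of the pivots, `E = EE B`):
lower triangular, `det T ≥ 1`, entries `≤ b` in absolute value.  `x T = x B Π` (as `x E = 0`), so `x T` has the entries `p_j` at the
pivots and `0` elsewhere; `det T x = (x T) adj T`, so `|x_k| ≤ m · 3 b · m! b ^ m`.  `|p_j| ≤ m · |x| · b`, `|u_j| ≤ |v_j| + |g_j - p_j| + |p_j|`. -/
def BnuStmt : Prop := ∀ (m : ℕ) (B : Matrix (Fin m) (Fin m) ℤ) (u v : Fin m → ℤ) (d b : ℕ),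
  IsHNF B → 1 ≤ b → (∀ i j, |B i j| ≤ (b : ℤ)) → (∀ j, |v j| ≤ (b : ℤ)) → d ≤ b ^ 2 →
  (∀ j, 0 < B j j → 0 ≤ u j ∧ u j < B j j) → (∃ p ∈ RS (rows B), sq (rv (v - u) - p) ≤ d) →
  ∀ j, |u j| ≤ 2 * b + m * (m * (3 * b) * (m.factorial * b ^ m)) * b

/-- BNY (90): the entries of `y` are bounded.  Uses DSR.

Proof.  `y = -(B g)ᵀ adj G` by DSR (2) (and `Matrix.adjugate_mul`), `|(B g)_i| ≤ m b a`, `|adj G| ≤ m! X ^ m`
(`Matrix.adjugate_apply`, `Matrix.det_le`). -/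
def BnyStmt : Prop := ∀ (m : ℕ) (B : Matrix (Fin m) (Fin m) ℤ) (g y : Fin m → ℤ) (a b X : ℤ),
  IsHNF B → 0 ≤ a → 1 ≤ b → 1 ≤ X → (∀ i j, |B i j| ≤ b) → (∀ j, |g j| ≤ a) →
  (∀ i j, |GG B i j| ≤ X) → y ᵥ* GG B = -(GG B).det • (B *ᵥ g) →
  ∀ j, |y j| ≤ (m : ℤ) * (m * b * a) * ((m.factorial : ℤ) * X ^ m)

/-! ## The number of certificates -/

/-- FIB (STRONG, 200): the certificates with the marked element `B`.  Uses HNE, HNU, HND, POS.

Proof.  Let `g` be the map which gives the Hermite normal form of a subgroup (HNE, HNU).  By HND `phiLt D B B'` iff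
`ph D (rows B) < ph D (rows B')` and `phiLe` iff `≤` (for Hermite normal forms; `gd = det ≥ 1`, `rk = piv`).  The map
`(l, c, u, z, y) ↦ ((l.take c).map rows, (l.drop (c + 1)).map rows, (u, z, y))` is a bijection of the set on the left onto
`chns (WS ..) ×ˢ chns (US ..) ×ˢ T`; the inverse maps `(l₁, l₂, t)` to `(l₁.map g ++ B :: l₂.map g, l₁.length, t)`.  (`l = l.take c ++ B :: l.drop (c + 1)`:
`List.take_append_drop`, `List.getD_eq_getElem`, `List.drop_eq_getElem_cons`; the elements before `c` are smaller than `B`,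
those after are larger: `List.pairwise_append`, `List.pairwise_cons`.  `getD t` for `t < c` and for `t > c` runs over the elements of
`take` and `drop`.)  `Set.ncard_prod`. -/
def FibStmt : Prop := ∀ (n m d s : ℕ) (A : Matrix (Fin n) (Fin m) ℤ) (v : Fin m → ℤ)
  (B : Matrix (Fin m) (Fin m) ℤ), PQ (rows A) (4 * d) B →
  {q ∈ CS A v d s | q.1.getD q.2.1 0 = B}.ncard =
    (chns (WS (4 * d) (rows B))).ncard * (chns (US (rows A) (4 * d) (rows B))).ncard *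
      {t : (Fin m → ℤ) × (Fin n → ℤ) × (Fin m → ℤ) | Tail A v d B t.1 t.2.1 t.2.2 ∧
        (∀ j, Rng ((s + 2) ^ 8) (t.1 j)) ∧ (∀ j, Rng ((s + 2) ^ 8) (t.2.1 j)) ∧
        ∀ j, Rng ((s + 2) ^ 8) (t.2.2 j)}.ncard

/-- CSF (100): the set of the certificates is finite, the chains are short.  Uses PHS, PHF, HND, HNU, CHN, GGP.

Proof.  `(2)`: for `t ≠ c` `phi (l_t) ≥ phi (l_c) ≥ 1`: `det_c ≤ D ^ piv_c` and `D ^ piv_c det_t ≤ D ^ piv_t det_c` give
`det_c det_t ≤ D ^ piv_t det_c`, divide by `det_c ≥ 1` (GGP for `c = m`).  `(3)`: `l.map rows` is a strictly increasing list of subgroups with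
`gd ≤ D ^ rk` (HND); without the first element, if it is `⊥`, it is a chain of `PM L D`: CHN.  `(1)`: `l` is a list without repetitions
of elements of a finite set (PHF and HNU: `rows` is injective on Hermite normal forms), `c < l.length`, `u, z, y` have entries in
a finite interval. -/
def CsfStmt : Prop := ∀ (n m d s : ℕ) (A : Matrix (Fin n) (Fin m) ℤ) (v : Fin m → ℤ),
  (CS A v d s).Finite ∧ (∀ p ∈ CS A v d s, ∀ B ∈ p.1, PQ (rows A) (4 * d) B) ∧
  ∀ p ∈ CS A v d s, p.1.length ≤ 1 + m * (1 + m * Nat.size (4 * d))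

/-- FBP (50): parity and fibres.

Proof.  `Finset.card_eq_sum_card_fiberwise` for `hX.toFinset` and the image under `f`; modulo 2 only the fibre of `y₀`
counts (it may be empty). -/
def FbpStmt : Prop := ∀ (α β : Type) (X : Set α) (f : α → β) (y₀ : β), X.Finite →
  (∀ y, y ≠ y₀ → Even {x ∈ X | f x = y}.ncard) → (Odd X.ncard ↔ Odd {x ∈ X | f x = y₀}.ncard)

end

end Pool.Agent.LAT
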